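import Mathlib
import Pool.Agent.H504R3.Bridge

/-!
Pauli systems over arbitrary index sets, and matched linear combinations.
-/

set_option autoImplicit false
set_option linter.unusedSectionVars false

open scoped ComplexOrder

namespace Run7.h812.Simp

open Pool.Agent.H504R3 Pool.Agent.Helper278
open Pool.Agent.Helper436.SM (sg sg_add sg_mul_self star_sg)

/-- Pauli strings over `I` -/
abbrev PV (I : Type) : Type := I →₀ (ZMod 2 × ZMod 2)

/-- the bilinear form -/
def bg {I : Type} (v w : PV I) : ZMod 2 := v.sum fun i a => a.2 * (w i).1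

section

variable {I J : Type}

theorem bg_add_left (u v w : PV I) : bg (u + v) w = bg u w + bg v w := by
  unfold bg
  classical
  refine Finsupp.sum_add_index' (fun i => ?_) (fun i a b => ?_)
  · simp
  · rw [Prod.snd_add, add_mul]

theorem bg_add_right (u v w : PV I) : bg u (v + w) = bg u v + bg u w := by
  unfold bg Finsupp.sum
  rw [← Finset.sum_add_distrib]
  refine Finset.sum_congr rfl (fun i _ => ?_)
  show (u i).2 * ((v + w) i).1 = (u i).2 * (v i).1 + (u i).2 * (w i).1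
  rw [Finsupp.add_apply, Prod.fst_add, mul_add]

theorem bg_zero_left (w : PV I) : bg 0 w = 0 := Finsupp.sum_zero_index

theorem bg_zero_right (w : PV I) : bg w 0 = 0 := by
  unfold bg Finsupp.sum
  refine Finset.sum_eq_zero (fun i _ => ?_)
  simp

theorem pv_add_self (v : PV I) : v + v = 0 := by
  ext i
  · simp [CharTwo.add_self_eq_zero]
  · simp [CharTwo.add_self_eq_zero]

theorem pv_add_eq_zero (v w : PV I) : v + w = 0 ↔ v = w := by
  constructor
  · intro h
    have : v + w + w = w := by rw [h, zero_add]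
    rw [add_assoc, pv_add_self, add_zero] at this
    exact this
  · rintro rfl
    exact pv_add_self v

theorem bg_mapDomain {f : J → I} (hf : Function.Injective f) (v w : PV J) :
    bg (v.mapDomain f) (w.mapDomain f) = bg v w := by
  unfold bg
  rw [Finsupp.sum_mapDomain_index_inj hf]
  refine Finsupp.sum_congr fun i _ => ?_
  rw [Finsupp.mapDomain_apply hf]

/-- A system of Pauli unitaries in a star algebra with a linear functional `τ`. -/
structure PSys {A : Type} [Ring A] [StarRing A] [Algebra ℂ A] (τ : A →ₗ[ℂ] ℂ)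
    (W : PV I → A) : Prop where
  zero : W 0 = 1
  mul : ∀ v w, W v * W w = sg (bg v w) • W (v + w)
  st : ∀ v, star (W v) = sg (bg v v) • W v
  one : τ 1 = 1
  trace : ∀ v, v ≠ 0 → τ (W v) = 0

variable {A : Type} [Ring A] [StarRing A] [Algebra ℂ A] {τ : A →ₗ[ℂ] ℂ}

theorem PSys.comp {W : PV I → A} (h : PSys τ W) {f : J → I} (hf : Function.Injective f) :
    PSys τ (fun v : PV J => W (v.mapDomain f)) where
  zero := by rw [Finsupp.mapDomain_zero, h.zero]
  mul v w := by rw [h.mul, bg_mapDomain hf, Finsupp.mapDomain_add]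
  st v := by rw [h.st, bg_mapDomain hf]
  one := h.one
  trace v hv := by
    refine h.trace _ fun h0 => hv ?_
    exact Finsupp.mapDomain_injective hf (by rw [h0, Finsupp.mapDomain_zero])

theorem PSys.star_mul_ne {W : PV I → A} (h : PSys τ W) {v w : PV I} (hvw : v ≠ w) :
    τ (star (W v) * W w) = 0 := by
  rw [h.st, smul_mul_assoc, h.mul, map_smul, map_smul,
    h.trace _ (fun h0 => hvw ((pv_add_eq_zero v w).1 h0)), smul_zero, smul_zero]

theorem PSys.unit {W : PV I → A} (h : PSys τ W) (v : PV I) : star (W v) * W v = 1 := by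
  rw [h.st, smul_mul_assoc, h.mul, smul_smul, sg_mul_self, one_smul, pv_add_self, h.zero]

theorem PSys.unit' {W : PV I → A} (h : PSys τ W) (v : PV I) : W v * star (W v) = 1 := by
  rw [h.st, mul_smul_comm, h.mul, smul_smul, sg_mul_self, one_smul, pv_add_self, h.zero]

theorem PSys.star_mul_self {W : PV I → A} (h : PSys τ W) (v : PV I) :
    τ (star (W v) * W v) = 1 := by
  rw [h.unit, h.one]

end

/-! ### matched linear combinations -/

noncomputable instance fpv (J : Type) [Fintype J] : Fintype (PV J) := by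
  classical exact inferInstanceAs (Fintype (J →₀ (ZMod 2 × ZMod 2)))

section

variable {J : Type} [Fintype J]
  {A : Type} [Ring A] [StarRing A] [Algebra ℂ A] [StarModule ℂ A]
  {B : Type} [Ring B] [StarRing B] [Algebra ℂ B] [StarModule ℂ B]
  {τ : A →ₗ[ℂ] ℂ} {τ' : B →ₗ[ℂ] ℂ} {w : PV J → A} {w' : PV J → B}

/-- `x` and `y` are the same linear combination of the systems `w` and `w'` -/
def Mt (w : PV J → A) (w' : PV J → B) (x : A) (y : B) : Prop :=
  ∃ c : PV J → ℂ, x = ∑ g, c g • w g ∧ y = ∑ g, c g • w' g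

theorem Mt.symm {x : A} {y : B} (h : Mt w w' x y) : Mt w' w y x := by
  obtain ⟨c, h1, h2⟩ := h
  exact ⟨c, h2, h1⟩

theorem Mt.gen (g : PV J) : Mt w w' (w g) (w' g) := by
  classical
  refine ⟨fun b => if b = g then 1 else 0, ?_, ?_⟩ <;>
  simp only [ite_smul, one_smul, zero_smul, Finset.sum_ite_eq', Finset.mem_univ, if_true]

theorem Mt.add {x y : A} {x' y' : B} (h : Mt w w' x x') (k : Mt w w' y y') :
    Mt w w' (x + y) (x' + y') := by
  obtain ⟨c, rfl, rfl⟩ := h
  obtain ⟨d, rfl, rfl⟩ := k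
  refine ⟨c + d, ?_, ?_⟩ <;>
  · simp only [Pi.add_apply, add_smul, Finset.sum_add_distrib]

theorem Mt.smul {x : A} {x' : B} (r : ℂ) (h : Mt w w' x x') : Mt w w' (r • x) (r • x') := by
  obtain ⟨c, rfl, rfl⟩ := h
  refine ⟨r • c, ?_, ?_⟩ <;>
  · simp only [Pi.smul_apply, smul_eq_mul, ← smul_smul, Finset.smul_sum]

theorem Mt.zero : Mt w w' (0 : A) (0 : B) :=
  ⟨0, by simp, by simp⟩

theorem Mt.sub {x y : A} {x' y' : B} (h : Mt w w' x x') (k : Mt w w' y y') :
    Mt w w' (x - y) (x' - y') := by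
  have := h.add (k.smul (-1))
  rwa [neg_one_smul, neg_one_smul, ← sub_eq_add_neg, ← sub_eq_add_neg] at this

theorem Mt.sum {ι : Type} (s : Finset ι) (x : ι → A) (x' : ι → B)
    (h : ∀ i ∈ s, Mt w w' (x i) (x' i)) : Mt w w' (∑ i ∈ s, x i) (∑ i ∈ s, x' i) := by
  classical
  induction s using Finset.induction_on with
  | empty => simpa using Mt.zero
  | insert a s ha ih =>
    rw [Finset.sum_insert ha, Finset.sum_insert ha]
    exact (h a (Finset.mem_insert_self _ _)).add
      (ih fun i hi => h i (Finset.mem_insert_of_mem hi))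

theorem Mt.mul (hw : PSys τ w) (hw' : PSys τ' w') {x y : A} {x' y' : B}
    (h : Mt w w' x x') (k : Mt w w' y y') : Mt w w' (x * y) (x' * y') := by
  obtain ⟨c, rfl, rfl⟩ := h
  obtain ⟨d, rfl, rfl⟩ := k
  rw [Finset.sum_mul_sum, Finset.sum_mul_sum]
  refine Mt.sum _ _ _ fun g _ => Mt.sum _ _ _ fun g' _ => ?_
  rw [smul_mul_smul_comm, smul_mul_smul_comm, hw.mul, hw'.mul]
  exact ((Mt.gen _).smul _).smul _

theorem Mt.st (hw : PSys τ w) (hw' : PSys τ' w') {x : A} {x' : B} (h : Mt w w' x x') :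
    Mt w w' (star x) (star x') := by
  obtain ⟨c, rfl, rfl⟩ := h
  rw [star_sum, star_sum]
  refine Mt.sum _ _ _ fun g _ => ?_
  rw [star_smul, star_smul, hw.st, hw'.st]
  exact ((Mt.gen _).smul _).smul _

theorem Mt.one (hw : PSys τ w) (hw' : PSys τ' w') : Mt w w' (1 : A) (1 : B) := by
  rw [← hw.zero, ← hw'.zero]
  exact Mt.gen 0

theorem Mt.trace (hw : PSys τ w) (hw' : PSys τ' w') {x : A} {x' : B} (h : Mt w w' x x') :
    τ x = τ' x' := by
  obtain ⟨c, rfl, rfl⟩ := h
  rw [map_sum, map_sum]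
  refine Finset.sum_congr rfl fun g _ => ?_
  rw [map_smul, map_smul]
  by_cases hg : g = 0
  · rw [hg, hw.zero, hw'.zero, hw.one, hw'.one]
  · rw [hw.trace g hg, hw'.trace g hg]

/-- the span -/
def Sp (w : PV J → A) : Submodule ℂ A := Submodule.span ℂ (Set.range w)

theorem mem_Sp {x : A} : x ∈ Sp w ↔ ∃ c : PV J → ℂ, x = ∑ g, c g • w g := by
  unfold Sp
  rw [Submodule.mem_span_range_iff_exists_fun]
  constructor
  · rintro ⟨c, h⟩
    exact ⟨c, h.symm⟩
  · rintro ⟨c, h⟩
    exact ⟨c, h.symm⟩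

theorem Mt.mem {x : A} {y : B} (h : Mt w w' x y) : x ∈ Sp w := by
  obtain ⟨c, h1, _⟩ := h
  exact mem_Sp.2 ⟨c, h1⟩

theorem exists_Mt {x : A} (h : x ∈ Sp w) (w' : PV J → B) : ∃ y, Mt w w' x y := by
  obtain ⟨c, h1⟩ := mem_Sp.1 h
  exact ⟨∑ g, c g • w' g, c, h1, rfl⟩

theorem fd_Sp (w : PV J → A) : FiniteDimensional ℂ (Sp w) :=
  FiniteDimensional.span_of_finite ℂ (Set.finite_range w)

theorem Sp_one (hw : PSys τ w) : (1 : A) ∈ Sp w := (Mt.one hw hw).mem

theorem Sp_mul (hw : PSys τ w) {x y : A} (hx : x ∈ Sp w) (hy : y ∈ Sp w) : x * y ∈ Sp w := by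
  obtain ⟨c, h1⟩ := mem_Sp.1 hx
  obtain ⟨d, h2⟩ := mem_Sp.1 hy
  exact (Mt.mul hw hw (⟨c, h1, h1⟩ : Mt w w x x) (⟨d, h2, h2⟩ : Mt w w y y)).mem

theorem Sp_star (hw : PSys τ w) {x : A} (hx : x ∈ Sp w) : star x ∈ Sp w := by
  obtain ⟨c, h1⟩ := mem_Sp.1 hx
  exact (Mt.st hw hw (⟨c, h1, h1⟩ : Mt w w x x)).mem

end

end Run7.h812.Simp
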