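import Mathlib
import Pool.Agent.Run7.h812.Simp.PS

/-!
Norms in the span of a finite Pauli system; the conditional expectation.
-/

set_option autoImplicit false
set_option linter.unusedSectionVars false

open scoped ComplexOrder

namespace Run7.h812.Simp

open Pool.Agent.H504R3 Pool.Agent.Helper278

theorem eig {A : Type} [CStarAlgebra A] [Nontrivial A] {a : A} (ha : star a = a)
    (V : Submodule ℂ A) (hfd : FiniteDimensional ℂ V) (h1 : (1 : A) ∈ V)
    (hV : ∀ x ∈ V, a * x ∈ V) :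
    ∃ (l : ℝ) (b : A), |l| = ‖a‖ ∧ b ∈ V ∧ b ≠ 0 ∧ a * b = (l : ℂ) • b := by
  obtain ⟨l, hl, hls⟩ : ∃ l : ℝ, |l| = ‖a‖ ∧ l ∈ spectrum ℝ a := by
    rcases CStarAlgebra.norm_or_neg_norm_mem_spectrum (a := a) ha with h | h
    · exact ⟨‖a‖, abs_of_nonneg (norm_nonneg a), h⟩
    · exact ⟨-‖a‖, by rw [abs_neg, abs_of_nonneg (norm_nonneg a)], h⟩
  by_contra hcon
  push Not at hcon
  have hcon' : ∀ b ∈ V, a * b = (l : ℂ) • b → b = 0 := by
    intro b hb hab
    by_contra hb0
    exact hcon l b hl hb hb0 hab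
  let f : V →ₗ[ℂ] V :=
    { toFun := fun x => ⟨a * x.1 - (l : ℂ) • x.1, V.sub_mem (hV _ x.2) (V.smul_mem _ x.2)⟩
      map_add' := fun x y => by
        apply Subtype.ext
        show a * (x.1 + y.1) - (l : ℂ) • (x.1 + y.1) =
          (a * x.1 - (l : ℂ) • x.1) + (a * y.1 - (l : ℂ) • y.1)
        rw [mul_add, smul_add]
        abel
      map_smul' := fun c x => by
        apply Subtype.ext
        show a * (c • x.1) - (l : ℂ) • (c • x.1) = c • (a * x.1 - (l : ℂ) • x.1)
        rw [mul_smul_comm, smul_sub, smul_comm] }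
  have hinj : Function.Injective f := by
    refine (injective_iff_map_eq_zero f).2 fun x hx => ?_
    apply Subtype.ext
    refine hcon' x.1 x.2 ?_
    have h2 : a * x.1 - (l : ℂ) • x.1 = 0 := congrArg Subtype.val hx
    exact sub_eq_zero.1 h2
  have hsurj : Function.Surjective f := LinearMap.surjective_of_injective hinj
  obtain ⟨c, hc⟩ := hsurj ⟨1, h1⟩
  have e0 : a * c.1 - (l : ℂ) • c.1 = 1 := congrArg Subtype.val hc
  have hal : algebraMap ℝ A l = (l : ℂ) • (1 : A) := by
    rw [Algebra.algebraMap_eq_smul_one]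
    exact (Complex.coe_smul l (1 : A)).symm
  have e1 : (algebraMap ℝ A l - a) * (-c.1) = 1 := by
    rw [hal, mul_neg, sub_mul, smul_mul_assoc, one_mul, neg_sub]
    exact e0
  have e2 : (-star c.1) * (algebraMap ℝ A l - a) = 1 := by
    have h3 := congrArg star e1
    rw [star_mul, star_neg, star_sub, ha, star_one, hal, star_smul, star_one] at h3
    rw [hal]
    have h4 : star (l : ℂ) = (l : ℂ) := Complex.conj_ofReal l
    rw [h4] at h3
    exact h3
  apply hls
  show IsUnit (algebraMap ℝ A l - a)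
  have e3 : (-star c.1) = -c.1 := left_inv_eq_right_inv e2 e1
  exact ⟨⟨algebraMap ℝ A l - a, -c.1, e1, by rw [← e3]; exact e2⟩, rfl⟩

section

variable {J : Type} [Fintype J] {M M' : TVN} {w : PV J → M.E} {w' : PV J → M'.E}

theorem tvn_nontrivial (M : TVN) : Nontrivial M.E := by
  refine ⟨⟨0, 1, fun h => ?_⟩⟩
  have h1 := M.map_one
  rw [← h, map_zero] at h1
  exact zero_ne_one h1

theorem n2_pos {M : TVN} {b : M.E} (hb : b ≠ 0) : 0 < n2 M.τ b := by
  rcases (n2_nonneg M.τ b).lt_or_eq with h | h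
  · exact h
  · exfalso
    apply hb
    refine M.faithful b ?_
    have h1 := M.trAlg.n2_sq b
    rw [← h] at h1
    apply Complex.ext
    · rw [← h1]; simp
    · rw [M.trAlg.im_zero b]; rfl

theorem nrm_eig (hw : PSys M.τ w) {y : M.E} (hy : y ∈ Sp w) :
    ∃ b ∈ Sp w, b ≠ 0 ∧ n2 M.τ (y * b) = M.opNorm y * n2 M.τ b := by
  have hn := tvn_nontrivial M
  have hsy : star y * y ∈ Sp w := Sp_mul hw (Sp_star hw hy) hy
  obtain ⟨l, b, hl, hb, hb0, hab⟩ := @eig (Pool.Agent.H467F.Elt M.N) _ hn (star y * y)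
    (by rw [star_mul, star_star]) (Sp w) (fd_Sp w) (Sp_one hw) (fun x hx => Sp_mul hw hsy hx)
  refine ⟨b, hb, hb0, ?_⟩
  have hab' : star y * y * b = (l : ℂ) • b := hab
  have h1 : n2 M.τ (y * b) ^ 2 = l * n2 M.τ b ^ 2 := by
    rw [M.trAlg.n2_sq, M.trAlg.n2_sq]
    have e : star (y * b) * (y * b) = star b * (star y * y * b) := by
      rw [star_mul]; noncomm_ring
    rw [e, hab', mul_smul_comm, map_smul, smul_eq_mul, Complex.re_ofReal_mul]
  have hbp := n2_pos hb0
  have hl0 : 0 ≤ l := by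
    by_contra hneg
    push Not at hneg
    have h2 : l * n2 M.τ b ^ 2 < 0 := mul_neg_of_neg_of_pos hneg (by positivity)
    have h3 := sq_nonneg (n2 M.τ (y * b))
    linarith
  have h4 : l = M.opNorm y ^ 2 := by
    rw [abs_of_nonneg hl0] at hl
    rw [hl, M.opNorm_eq, sq]
    exact CStarRing.norm_star_mul_self (E := Pool.Agent.H467F.Elt M.N)
  have h5 : 0 ≤ M.opNorm y := norm_nonneg _
  have h6 := n2_nonneg M.τ (y * b)
  rw [h4, ← mul_pow] at h1
  exact (pow_left_inj₀ h6 (by positivity) two_ne_zero).1 h1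

theorem Mt.n2_eq (hw : PSys M.τ w) (hw' : PSys M'.τ w') {x : M.E} {x' : M'.E} (h : Mt w w' x x') :
    n2 M.τ x = n2 M'.τ x' := by
  unfold n2
  rw [((h.st hw hw').mul hw hw' h).trace hw hw']

theorem Mt.norm_le (hw : PSys M.τ w) (hw' : PSys M'.τ w') {y : M.E} {y' : M'.E}
    (h : Mt w w' y y') : M.opNorm y ≤ M'.opNorm y' := by
  obtain ⟨b, hb, hb0, hb1⟩ := nrm_eig hw h.mem
  obtain ⟨b', hb'⟩ := exists_Mt hb w'
  have h1 := (h.mul hw hw' hb').n2_eq hw hw'
  have h2 := hb'.n2_eq hw hw'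
  have h3 := (M'.n2_mul_le y' b').1
  rw [← h1, hb1, h2] at h3
  have h4 : 0 < n2 M'.τ b' := by
    rw [← h2]
    exact n2_pos hb0
  exact le_of_mul_le_mul_right h3 h4

theorem Mt.norm_eq (hw : PSys M.τ w) (hw' : PSys M'.τ w') {y : M.E} {y' : M'.E}
    (h : Mt w w' y y') : M.opNorm y = M'.opNorm y' :=
  le_antisymm (h.norm_le hw hw') (h.symm.norm_le hw' hw)

theorem pyth (M : TVN) {p q : M.E} (h : M.τ (star q * p) = 0) :
    n2 M.τ (p + q) ^ 2 = n2 M.τ p ^ 2 + n2 M.τ q ^ 2 := by
  have h' : M.τ (star p * q) = 0 := by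
    have := M.trAlg.conj (star q * p)
    rw [star_mul, star_star, h, star_zero] at this
    exact this
  rw [M.trAlg.n2_sq, M.trAlg.n2_sq, M.trAlg.n2_sq]
  have e : star (p + q) * (p + q) = star p * p + star q * q + (star p * q + star q * p) := by
    rw [star_add]; noncomm_ring
  rw [e, map_add, map_add, map_add, h, h', add_zero, add_zero, Complex.add_re]

/-- the conditional expectation -/
theorem proj (hw : PSys M.τ w) (z : M.E) : ∃ y ∈ Sp w, M.opNorm y ≤ M.opNorm z ∧
    ∀ u ∈ Sp w, n2 M.τ (z - y) ≤ n2 M.τ (z - u) := by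
  set y : M.E := ∑ g, M.τ (star (w g) * z) • w g with hy
  have hyS : y ∈ Sp w := mem_Sp.2 ⟨_, hy⟩
  have horth : ∀ u ∈ Sp w, M.τ (star u * (z - y)) = 0 := by
    intro u hu
    obtain ⟨d, rfl⟩ := mem_Sp.1 hu
    rw [star_sum, Finset.sum_mul, map_sum]
    refine Finset.sum_eq_zero fun g _ => ?_
    rw [star_smul, smul_mul_assoc, map_smul]
    have : M.τ (star (w g) * (z - y)) = 0 := by
      rw [mul_sub, map_sub, hy, Finset.mul_sum, map_sum, Finset.sum_eq_single g]
      · rw [mul_smul_comm, map_smul, hw.star_mul_self, smul_eq_mul, mul_one, sub_self]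
      · intro b _ hb
        rw [mul_smul_comm, map_smul, hw.star_mul_ne (Ne.symm hb), smul_zero]
      · intro hg
        exact absurd (Finset.mem_univ _) hg
    rw [this, smul_zero]
  refine ⟨y, hyS, ?_, ?_⟩
  · obtain ⟨b, hb, hb0, hb1⟩ := nrm_eig hw hyS
    have h0 : M.τ (star (y * b) * (z * b - y * b)) = 0 := by
      have e : M.τ (star (y * b) * (z * b - y * b)) = M.τ (star (y * b * star b) * (z - y)) := by
        have e1 : star (y * b) * (z * b - y * b) = (star (y * b) * (z - y)) * b := by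
          noncomm_ring
        rw [e1, M.tracial, star_mul (y * b), star_star]
        congr 1
      rw [e]
      exact horth _ (Sp_mul hw (Sp_mul hw hyS hb) (Sp_star hw hb))
    have h1 := pyth M (p := z * b - y * b) (q := y * b) h0
    rw [sub_add_cancel] at h1
    have h2 : n2 M.τ (y * b) ≤ n2 M.τ (z * b) := by
      have h3 := sq_nonneg (n2 M.τ (z * b - y * b))
      exact (pow_le_pow_iff_left₀ (n2_nonneg _ _) (n2_nonneg _ _) two_ne_zero).1 (by linarith)
    have h4 := (M.n2_mul_le z b).1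
    rw [hb1] at h2
    exact le_of_mul_le_mul_right (h2.trans h4) (n2_pos hb0)
  · intro u hu
    have h0 : M.τ (star (y - u) * (z - y)) = 0 := horth _ (Submodule.sub_mem _ hyS hu)
    have h1 := pyth M (p := z - y) (q := y - u) h0
    rw [sub_add_sub_cancel] at h1
    have h3 := sq_nonneg (n2 M.τ (y - u))
    exact (pow_le_pow_iff_left₀ (n2_nonneg _ _) (n2_nonneg _ _) two_ne_zero).1 (by linarith)

end

end Run7.h812.Simp
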