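import Mathlib
import Pool.Agent.Run7.h812.Simp.Eig

/-!
Formulas are bounded and uniformly continuous on balls.
-/

set_option autoImplicit false
set_option linter.unusedSectionVars false

open scoped ComplexOrder

namespace Run7.h812.Simp

open Pool.Agent.H504R3 Pool.Agent.Helper278
open Pool.Agent.H504R3.S (Str str tval sub_eq)

/-- formulas of continuous logic -/
abbrev FM (n : ℕ) : Type := Pool.Agent.H504R3.S.Fm n

/-- terms of continuous logic -/
abbrev TM (V : Type) : Type := Pool.Agent.H504R3.S.Tm V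

section

variable (M : TVN)

theorem opn_nonneg (x : M.E) : 0 ≤ M.opNorm x := norm_nonneg _

theorem opn_add (x y : M.E) : M.opNorm (x + y) ≤ M.opNorm x + M.opNorm y :=
  norm_add_le _ _

theorem opn_mul (x y : M.E) : M.opNorm (x * y) ≤ M.opNorm x * M.opNorm y :=
  norm_mul_le _ _

theorem opn_star (x : M.E) : M.opNorm (star x) = M.opNorm x :=
  norm_star (x : M.H →L[ℂ] M.H)

theorem opn_smul (c : ℂ) (x : M.E) : M.opNorm (c • x) = ‖c‖ * M.opNorm x :=
  norm_smul c (x : M.H →L[ℂ] M.H)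

theorem n2_one' : n2 M.τ 1 = 1 := by
  unfold n2
  rw [star_one, one_mul, M.map_one]
  simp

theorem n2_le_opn (x : M.E) : n2 M.τ x ≤ M.opNorm x := by
  have := (M.n2_mul_le x 1).1
  rwa [mul_one, n2_one', mul_one] at this

theorem norm_tr_le (x : M.E) : ‖M.τ x‖ ≤ n2 M.τ x := by
  have := M.trAlg.cauchy 1 x
  rwa [star_one, one_mul, n2_one', one_mul] at this

/-- the terms -/
theorem term_bd {n : ℕ} (t : TM (Fin n)) (r : ℝ) (hr : 0 ≤ r) :
    ∃ C : ℝ, 0 ≤ C ∧ ∀ x : Fin n → M.E, (∀ k, M.opNorm (x k) ≤ r) →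
      M.opNorm (tval M x t) ≤ C := by
  induction t with
  | var v => exact ⟨r, hr, fun x hx => hx v⟩
  | one =>
    refine ⟨M.opNorm 1, opn_nonneg M 1, fun x _ => le_refl _⟩
  | add s t hs ht =>
    obtain ⟨C, hC, h1⟩ := hs
    obtain ⟨D, hD, h2⟩ := ht
    refine ⟨C + D, by positivity, fun x hx => ?_⟩
    exact (opn_add M _ _).trans (add_le_add (h1 x hx) (h2 x hx))
  | mul s t hs ht =>
    obtain ⟨C, hC, h1⟩ := hs
    obtain ⟨D, hD, h2⟩ := ht
    refine ⟨C * D, by positivity, fun x hx => ?_⟩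
    exact (opn_mul M _ _).trans (mul_le_mul (h1 x hx) (h2 x hx) (opn_nonneg M _) hC)
  | adj s hs =>
    obtain ⟨C, hC, h1⟩ := hs
    refine ⟨C, hC, fun x hx => ?_⟩
    exact (opn_star M _).trans_le (h1 x hx)
  | scal c s hs =>
    obtain ⟨C, hC, h1⟩ := hs
    refine ⟨‖c‖ * C, by positivity, fun x hx => ?_⟩
    exact (opn_smul M _ _).trans_le (mul_le_mul_of_nonneg_left (h1 x hx) (norm_nonneg _))

theorem term_lip {n : ℕ} (t : TM (Fin n)) (r : ℝ) (hr : 0 ≤ r) :
    ∃ L : ℝ, 0 ≤ L ∧ ∀ (x y : Fin n → M.E) (δ : ℝ), 0 ≤ δ → (∀ k, M.opNorm (x k) ≤ r) →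
      (∀ k, M.opNorm (y k) ≤ r) → (∀ k, n2 M.τ (x k - y k) ≤ δ) →
      n2 M.τ (tval M x t - tval M y t) ≤ L * δ := by
  induction t with
  | var v => exact ⟨1, zero_le_one, fun x y δ _ _ _ h => by rw [one_mul]; exact h v⟩
  | one =>
    refine ⟨0, le_refl _, fun x y δ _ _ _ _ => ?_⟩
    have : tval M x (Pool.Agent.H504R3.S.Tm.one) - tval M y (Pool.Agent.H504R3.S.Tm.one) = 0 :=
      sub_self _
    rw [this, M.trAlg.n2_zero, zero_mul]
  | add s t hs ht =>
    obtain ⟨C, hC, h1⟩ := hs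
    obtain ⟨D, hD, h2⟩ := ht
    refine ⟨C + D, by positivity, fun x y δ h0 hx hy h => ?_⟩
    have e : tval M x (s.add t) - tval M y (s.add t) =
      (tval M x s - tval M y s) + (tval M x t - tval M y t) := by
      show (tval M x s + tval M x t) - (tval M y s + tval M y t) = _
      abel
    rw [e, add_mul]
    exact (M.trAlg.n2_add_le _ _).trans (add_le_add (h1 x y δ h0 hx hy h) (h2 x y δ h0 hx hy h))
  | mul s t hs ht =>
    obtain ⟨C, hC, h1⟩ := hs
    obtain ⟨D, hD, h2⟩ := ht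
    obtain ⟨C', hC', h1'⟩ := term_bd M s r hr
    obtain ⟨D', hD', h2'⟩ := term_bd M t r hr
    refine ⟨C * D' + C' * D, by positivity, fun x y δ h0 hx hy h => ?_⟩
    have e : tval M x (s.mul t) - tval M y (s.mul t) =
      (tval M x s - tval M y s) * tval M x t + tval M y s * (tval M x t - tval M y t) := by
      show (tval M x s * tval M x t) - (tval M y s * tval M y t) = _
      noncomm_ring
    rw [e]
    refine (M.trAlg.n2_add_le _ _).trans ?_
    have a1 := (M.n2_mul_le (tval M x t) (tval M x s - tval M y s)).2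
    have a2 := (M.n2_mul_le (tval M y s) (tval M x t - tval M y t)).1
    have b1 := h1 x y δ h0 hx hy h
    have b2 := h2 x y δ h0 hx hy h
    have b3 := h2' x hx
    have b4 := h1' y hy
    have c1 : n2 M.τ (tval M x s - tval M y s) * M.opNorm (tval M x t) ≤ (C * δ) * D' :=
      mul_le_mul b1 b3 (opn_nonneg M _) (by positivity)
    have c2 : M.opNorm (tval M y s) * n2 M.τ (tval M x t - tval M y t) ≤ C' * (D * δ) :=
      mul_le_mul b4 b2 (n2_nonneg _ _) (by positivity)
    have c3 : (C * D' + C' * D) * δ = (C * δ) * D' + C' * (D * δ) := by ring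
    rw [c3]
    exact add_le_add (a1.trans c1) (a2.trans c2)
  | adj s hs =>
    obtain ⟨C, hC, h1⟩ := hs
    refine ⟨C, hC, fun x y δ h0 hx hy h => ?_⟩
    have e : tval M x s.adj - tval M y s.adj = star (tval M x s - tval M y s) := by
      rw [star_sub]; rfl
    rw [e, M.trAlg.n2_star]
    exact h1 x y δ h0 hx hy h
  | scal c s hs =>
    obtain ⟨C, hC, h1⟩ := hs
    refine ⟨‖c‖ * C, by positivity, fun x y δ h0 hx hy h => ?_⟩
    have e : tval M x (s.scal c) - tval M y (s.scal c) =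
        (c • (1 : M.E)) * (tval M x s - tval M y s) := by
      rw [smul_mul_assoc, one_mul, smul_sub]; rfl
    rw [e]
    have a1 := (M.n2_mul_le (c • (1 : M.E)) (tval M x s - tval M y s)).1
    have a2 : M.opNorm (c • (1 : M.E)) ≤ ‖c‖ := by
      rw [opn_smul]
      have : M.opNorm 1 ≤ 1 := ContinuousLinearMap.norm_id_le
      nlinarith [norm_nonneg c]
    have b1 := h1 x y δ h0 hx hy h
    calc _ ≤ _ := a1
      _ ≤ ‖c‖ * (C * δ) := mul_le_mul a2 b1 (n2_nonneg _ _) (norm_nonneg _)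
      _ = ‖c‖ * C * δ := by ring

/-- bounded and uniformly continuous on the balls -/
structure UC {n : ℕ} (f : (Fin n → M.E) → ℝ) (r : ℝ) : Prop where
  bd : ∃ C : ℝ, ∀ x, (∀ k, M.opNorm (x k) ≤ r) → |f x| ≤ C
  uc : ∀ ε : ℝ, 0 < ε → ∃ δ : ℝ, 0 < δ ∧ ∀ x y, (∀ k, M.opNorm (x k) ≤ r) →
    (∀ k, M.opNorm (y k) ≤ r) → (∀ k, n2 M.τ (x k - y k) ≤ δ) → |f x - f y| ≤ ε

theorem exists_min_pos {k : ℕ} (f : Fin k → ℝ) (hf : ∀ i, 0 < f i) :
    ∃ δ : ℝ, 0 < δ ∧ ∀ i, δ ≤ f i := by
  classical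
  have : ∀ s : Finset (Fin k), ∃ δ : ℝ, 0 < δ ∧ ∀ i ∈ s, δ ≤ f i := by
    intro s
    induction s using Finset.induction_on with
    | empty => exact ⟨1, one_pos, fun i hi => absurd hi (Finset.notMem_empty i)⟩
    | insert a s ha ih =>
      obtain ⟨δ, h1, h2⟩ := ih
      refine ⟨min (f a) δ, lt_min (hf a) h1, fun i hi => ?_⟩
      rcases Finset.mem_insert.1 hi with rfl | hi
      · exact min_le_left _ _
      · exact (min_le_right _ _).trans (h2 i hi)
  obtain ⟨δ, h1, h2⟩ := this Finset.univ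
  exact ⟨δ, h1, fun i => h2 i (Finset.mem_univ _)⟩

theorem exists_max {k : ℕ} (f : Fin k → ℝ) : ∃ C : ℝ, 0 ≤ C ∧ ∀ i, f i ≤ C := by
  refine ⟨∑ i, |f i|, Finset.sum_nonneg fun i _ => abs_nonneg _, fun i => ?_⟩
  exact (le_abs_self _).trans
    (Finset.single_le_sum (f := fun i => |f i|) (fun i _ => abs_nonneg _) (Finset.mem_univ i))

theorem UC_conn {n k : ℕ} (u : C(Fin k → ℝ, ℝ)) (f : Fin k → (Fin n → M.E) → ℝ) (r : ℝ)
    (hf : ∀ i, UC M (f i) r) : UC M (fun x => u fun i => f i x) r := by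
  choose C hC using fun i => (hf i).bd
  obtain ⟨D, hD, hD'⟩ := exists_max C
  set K : Set (Fin k → ℝ) := Set.pi Set.univ fun _ => Set.Icc (-D) D with hK
  have hKc : IsCompact K := isCompact_univ_pi fun _ => isCompact_Icc
  have hmem : ∀ x : Fin n → M.E, (∀ k, M.opNorm (x k) ≤ r) → (fun i => f i x) ∈ K := by
    intro x hx i _
    have := (hC i x hx).trans (hD' i)
    exact abs_le.1 this
  constructor
  · obtain ⟨E, hE⟩ := hKc.exists_bound_of_continuousOn (f := u) u.continuous.continuousOn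
    exact ⟨E, fun x hx => hE _ (hmem x hx)⟩
  · intro ε hε
    have huc : UniformContinuousOn u K := hKc.uniformContinuousOn_of_continuous
      u.continuous.continuousOn
    rw [Metric.uniformContinuousOn_iff] at huc
    obtain ⟨η, hη, h1⟩ := huc ε hε
    choose δ hδ h2 using fun i => (hf i).uc (η / 2) (by positivity)
    obtain ⟨δ', h3, h4⟩ := exists_min_pos δ hδ
    refine ⟨δ', h3, fun x y hx hy hxy => ?_⟩
    have h5 : dist (fun i => f i x) (fun i => f i y) < η := by
      refine lt_of_le_of_lt ((dist_pi_le_iff (by positivity : (0 : ℝ) ≤ η / 2)).2 fun i => ?_)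
        (half_lt_self hη)
      exact h2 i x y hx hy fun k => (hxy k).trans (h4 i)
    have h6 := h1 _ (hmem x hx) _ (hmem y hy) h5
    rw [Real.dist_eq] at h6
    exact h6.le

instance (r : ℕ) : Nonempty (M.Ball r) :=
  ⟨⟨0, by
    have : M.opNorm (0 : M.E) = 0 := norm_zero
    rw [this]
    exact Nat.cast_nonneg r⟩⟩

theorem abs_iSup_le {ι : Type} [Nonempty ι] (f : ι → ℝ) (C : ℝ) (h : ∀ i, |f i| ≤ C) :
    |⨆ i, f i| ≤ C := by
  have hb : BddAbove (Set.range f) := ⟨C, by rintro _ ⟨i, rfl⟩; exact (abs_le.1 (h i)).2⟩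
  rw [abs_le]
  constructor
  · obtain ⟨i⟩ := ‹Nonempty ι›
    exact (abs_le.1 (h i)).1.trans (le_ciSup hb i)
  · exact ciSup_le fun i => (abs_le.1 (h i)).2

theorem abs_iSup_sub_le {ι : Type} [Nonempty ι] (f g : ι → ℝ) (C ε : ℝ) (hf : ∀ i, |f i| ≤ C)
    (hg : ∀ i, |g i| ≤ C) (h : ∀ i, |f i - g i| ≤ ε) : |(⨆ i, f i) - ⨆ i, g i| ≤ ε := by
  have hb : BddAbove (Set.range f) := ⟨C, by rintro _ ⟨i, rfl⟩; exact (abs_le.1 (hf i)).2⟩
  have hb' : BddAbove (Set.range g) := ⟨C, by rintro _ ⟨i, rfl⟩; exact (abs_le.1 (hg i)).2⟩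
  rw [abs_le]
  constructor
  · have : (⨆ i, g i) ≤ (⨆ i, f i) + ε := by
      refine ciSup_le fun i => ?_
      have h1 := (abs_le.1 (h i)).1
      have h2 := le_ciSup hb i
      linarith
    linarith
  · have : (⨆ i, f i) ≤ (⨆ i, g i) + ε := by
      refine ciSup_le fun i => ?_
      have h1 := (abs_le.1 (h i)).2
      have h2 := le_ciSup hb' i
      linarith
    linarith

theorem iInf_eq_neg {ι : Type} (f : ι → ℝ) : (⨅ i, f i) = -⨆ i, -f i := by
  have h := Real.iInf_mul_of_nonpos (r := -1) (by norm_num) f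
  simp only [mul_neg, mul_one] at h
  rw [← h, neg_neg]

theorem UC_sup {n : ℕ} (f : (Fin (n + 1) → M.E) → ℝ) (r : ℝ) (s : ℕ)
    (hf : UC M f (max r s)) : UC M (fun x => ⨆ y : M.Ball s, f (Fin.cons y.1 x)) r := by
  obtain ⟨C, hC⟩ := hf.bd
  have hb : ∀ (x : Fin n → M.E), (∀ k, M.opNorm (x k) ≤ r) → ∀ y : M.Ball s,
      ∀ k, M.opNorm ((Fin.cons y.1 x : Fin (n + 1) → M.E) k) ≤ max r s := by
    intro x hx y k
    refine Fin.cases ?_ (fun k => ?_) k
    · rw [Fin.cons_zero]
      exact y.2.trans (le_max_right _ _)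
    · rw [Fin.cons_succ]
      exact (hx k).trans (le_max_left _ _)
  constructor
  · exact ⟨C, fun x hx => abs_iSup_le _ C fun y => hC _ (hb x hx y)⟩
  · intro ε hε
    obtain ⟨δ, h1, h2⟩ := hf.uc ε hε
    refine ⟨δ, h1, fun x x' hx hx' hxx => ?_⟩
    refine abs_iSup_sub_le _ _ C ε (fun y => hC _ (hb x hx y)) (fun y => hC _ (hb x' hx' y))
      fun y => h2 _ _ (hb x hx y) (hb x' hx' y) fun k => ?_
    refine Fin.cases ?_ (fun k => ?_) k
    · rw [Fin.cons_zero, Fin.cons_zero, sub_self, M.trAlg.n2_zero]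
      exact h1.le
    · rw [Fin.cons_succ, Fin.cons_succ]
      exact hxx k

theorem UC_neg {n : ℕ} {f : (Fin n → M.E) → ℝ} {r : ℝ} (hf : UC M f r) :
    UC M (fun x => -f x) r := by
  obtain ⟨C, hC⟩ := hf.bd
  constructor
  · exact ⟨C, fun x hx => by rw [abs_neg]; exact hC x hx⟩
  · intro ε hε
    obtain ⟨δ, h1, h2⟩ := hf.uc ε hε
    refine ⟨δ, h1, fun x x' hx hx' hxx => ?_⟩
    rw [neg_sub_neg, abs_sub_comm]
    exact h2 x x' hx hx' hxx

/-- the value of a formula -/
noncomputable def fv {n : ℕ} (φ : FM n) (x : Fin n → M.E) : ℝ := φ.val (str M) x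

theorem fv_inf {n : ℕ} (s : ℕ) (φ : FM (n + 1)) (x : Fin n → M.E) :
    fv M (Pool.Agent.H504R3.S.Fm.inf s φ) x = -⨆ y : M.Ball s, -fv M φ (Fin.cons y.1 x) :=
  iInf_eq_neg _

theorem fv_sup {n : ℕ} (s : ℕ) (φ : FM (n + 1)) (x : Fin n → M.E) :
    fv M (Pool.Agent.H504R3.S.Fm.sup s φ) x = ⨆ y : M.Ball s, fv M φ (Fin.cons y.1 x) := rfl

theorem UC_fm {n : ℕ} (φ : FM n) : ∀ r : ℝ, 0 ≤ r → UC M (fv M φ) r := by
  induction φ with
  | re t =>
    intro r hr
    obtain ⟨C, hC, h1⟩ := term_bd M t r hr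
    obtain ⟨L, hL, h2⟩ := term_lip M t r hr
    constructor
    · refine ⟨C, fun x hx => ?_⟩
      show |(M.τ (tval M x t)).re| ≤ C
      exact (Complex.abs_re_le_norm _).trans ((norm_tr_le M _).trans
        ((n2_le_opn M _).trans (h1 x hx)))
    · intro ε hε
      refine ⟨ε / (L + 1), by positivity, fun x y hx hy h => ?_⟩
      show |(M.τ (tval M x t)).re - (M.τ (tval M y t)).re| ≤ ε
      rw [← Complex.sub_re, ← map_sub]
      refine (Complex.abs_re_le_norm _).trans ((norm_tr_le M _).trans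
        ((h2 x y _ (by positivity) hx hy h).trans ?_))
      rw [mul_div_assoc', div_le_iff₀ (by positivity)]
      nlinarith
  | im t =>
    intro r hr
    obtain ⟨C, hC, h1⟩ := term_bd M t r hr
    obtain ⟨L, hL, h2⟩ := term_lip M t r hr
    constructor
    · refine ⟨C, fun x hx => ?_⟩
      show |(M.τ (tval M x t)).im| ≤ C
      exact (Complex.abs_im_le_norm _).trans ((norm_tr_le M _).trans
        ((n2_le_opn M _).trans (h1 x hx)))
    · intro ε hε
      refine ⟨ε / (L + 1), by positivity, fun x y hx hy h => ?_⟩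
      show |(M.τ (tval M x t)).im - (M.τ (tval M y t)).im| ≤ ε
      rw [← Complex.sub_im, ← map_sub]
      refine (Complex.abs_im_le_norm _).trans ((norm_tr_le M _).trans
        ((h2 x y _ (by positivity) hx hy h).trans ?_))
      rw [mul_div_assoc', div_le_iff₀ (by positivity)]
      nlinarith
  | nrm t =>
    intro r hr
    obtain ⟨C, hC, h1⟩ := term_bd M t r hr
    obtain ⟨L, hL, h2⟩ := term_lip M t r hr
    constructor
    · refine ⟨C, fun x hx => ?_⟩
      show |n2 M.τ (tval M x t)| ≤ C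
      rw [abs_of_nonneg (n2_nonneg _ _)]
      exact (n2_le_opn M _).trans (h1 x hx)
    · intro ε hε
      refine ⟨ε / (L + 1), by positivity, fun x y hx hy h => ?_⟩
      show |n2 M.τ (tval M x t) - n2 M.τ (tval M y t)| ≤ ε
      have h3 : |n2 M.τ (tval M x t) - n2 M.τ (tval M y t)| ≤
          n2 M.τ (tval M x t - tval M y t) := by
        rw [abs_le]
        constructor
        · have := M.trAlg.n2_add_le (tval M y t - tval M x t) (tval M x t)
          rw [sub_add_cancel, M.trAlg.n2_sub_comm] at this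
          linarith
        · have := M.trAlg.n2_add_le (tval M x t - tval M y t) (tval M y t)
          rw [sub_add_cancel] at this
          linarith
      refine h3.trans ((h2 x y _ (by positivity) hx hy h).trans ?_)
      rw [mul_div_assoc', div_le_iff₀ (by positivity)]
      nlinarith
  | conn u φ ih =>
    intro r hr
    exact UC_conn M u _ r fun i => ih i r hr
  | sup s φ ih =>
    intro r hr
    exact UC_sup M _ r s (ih _ (hr.trans (le_max_left _ _)))
  | inf s φ ih =>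
    intro r hr
    have h1 := UC_neg M (UC_sup M _ r s (UC_neg M (ih _ (hr.trans (le_max_left r s)))))
    have e : fv M (Pool.Agent.H504R3.S.Fm.inf s φ) =
        fun x => -⨆ y : M.Ball s, -fv M φ (Fin.cons y.1 x) := by
      funext x
      exact fv_inf M s φ x
    rw [e]
    exact h1

end

end Run7.h812.Simp
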