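import Mathlib
import Pool.Agent.Run7.h812.Simp.Cont

/-!
Back and forth.
-/

set_option autoImplicit false
set_option linter.unusedSectionVars false

open scoped ComplexOrder

namespace Run7.h812.Simp

open Pool.Agent.H504R3 Pool.Agent.Helper278
open Pool.Agent.H504R3.S (Str str tval sub_eq)


/-- the span of a Pauli system is dense -/
def Dn (M : TVN) {I : Type} (W : PV I → M.E) : Prop :=
  ∀ (x : M.E) (ε : ℝ), 0 < ε →
    ∃ (F : Finset (PV I)) (c : PV I → ℂ), n2 M.τ (x - ∑ t ∈ F, c t • W t) < ε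

/-- the subsystem -/
noncomputable def sub {I J : Type} {A : Type} (W : PV I → A) (f : J → I) (v : PV J) : A :=
  W (v.mapDomain f)

theorem exists_ext {I I' : Type} [Infinite I'] (T : Finset I) (J : Type) (iJ : Fintype J)
    (f : J → I) (f' : J → I') (hf : Function.Injective f) (hf' : Function.Injective f') :
    ∃ (K : Type) (_ : Fintype K) (e : J → K) (g : K → I) (g' : K → I'),
      Function.Injective g ∧ Function.Injective g' ∧ (∀ j, g (e j) = f j) ∧
      (∀ j, g' (e j) = f' j) ∧ ∀ t ∈ T, t ∈ Set.range g := by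
  classical
  induction T using Finset.induction_on with
  | empty => exact ⟨J, iJ, id, f, f', hf, hf', fun _ => rfl, fun _ => rfl,
      fun t ht => absurd ht (Finset.notMem_empty t)⟩
  | insert a s ha ih =>
    obtain ⟨K, iK, e, g, g', h1, h2, h3, h4, h5⟩ := ih
    by_cases hag : a ∈ Set.range g
    · refine ⟨K, iK, e, g, g', h1, h2, h3, h4, fun t ht => ?_⟩
      rcases Finset.mem_insert.1 ht with rfl | ht
      · exact hag
      · exact h5 t ht
    · obtain ⟨b, hb⟩ := Infinite.exists_notMem_finset (Finset.univ.image g')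
      have hb' : b ∉ Set.range g' := by
        rintro ⟨k, hk⟩
        exact hb (Finset.mem_image.2 ⟨k, Finset.mem_univ _, hk⟩)
      refine ⟨Option K, inferInstance, fun j => some (e j), fun o => o.elim a g,
        fun o => o.elim b g', ?_, ?_, h3, h4, ?_⟩
      · intro o o' ho
        cases o with
        | none =>
          cases o' with
          | none => rfl
          | some k => exact absurd ⟨k, ho.symm⟩ hag
        | some k =>
          cases o' with
          | none => exact absurd ⟨k, ho⟩ hag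
          | some k' => exact congrArg some (h1 ho)
      · intro o o' ho
        cases o with
        | none =>
          cases o' with
          | none => rfl
          | some k => exact absurd ⟨k, ho.symm⟩ hb'
        | some k =>
          cases o' with
          | none => exact absurd ⟨k, ho⟩ hb'
          | some k' => exact congrArg some (h2 ho)
      · intro t ht
        rcases Finset.mem_insert.1 ht with rfl | ht
        · exact ⟨none, rfl⟩
        · obtain ⟨k, hk⟩ := h5 t ht
          exact ⟨some k, hk⟩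

section

variable {I I' : Type} {M M' : TVN} {W : PV I → M.E} {W' : PV I' → M'.E}

theorem sub_psys {J : Type} (hW : PSys M.τ W) {f : J → I} (hf : Function.Injective f) :
    PSys M.τ (sub W f) := hW.comp hf

theorem Mt_lift {J K : Type} [Fintype J] [Fintype K] {e : J → K} {f : J → I} {f' : J → I'}
    {g : K → I} {g' : K → I'} (h3 : ∀ j, g (e j) = f j) (h4 : ∀ j, g' (e j) = f' j)
    {x : M.E} {x' : M'.E} (h : Mt (sub W f) (sub W' f') x x') :
    Mt (sub W g) (sub W' g') x x' := by
  obtain ⟨c, rfl, rfl⟩ := h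
  refine Mt.sum _ _ _ fun v _ => Mt.smul _ ?_
  have e1 : sub W f v = sub W g (v.mapDomain e) := by
    unfold sub
    rw [← Finsupp.mapDomain_comp]
    congr 1
    exact Finsupp.mapDomain_congr fun j _ => (h3 j).symm
  have e2 : sub W' f' v = sub W' g' (v.mapDomain e) := by
    unfold sub
    rw [← Finsupp.mapDomain_comp]
    congr 1
    exact Finsupp.mapDomain_congr fun j _ => (h4 j).symm
  rw [e1, e2]
  exact Mt.gen _

theorem forth [Infinite I'] (hW : PSys M.τ W) (hd : Dn M W) (hW' : PSys M'.τ W')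
    (J : Type) (iJ : Fintype J) (f : J → I) (f' : J → I') (hf : Function.Injective f)
    (hf' : Function.Injective f') (z : M.E) (ε : ℝ) (hε : 0 < ε) :
    ∃ (K : Type) (_ : Fintype K) (e : J → K) (g : K → I) (g' : K → I'),
      Function.Injective g ∧ Function.Injective g' ∧ (∀ j, g (e j) = f j) ∧
      (∀ j, g' (e j) = f' j) ∧ ∃ (y : M.E) (y' : M'.E), Mt (sub W g) (sub W' g') y y' ∧
      n2 M.τ (z - y) < ε ∧ M.opNorm y ≤ M.opNorm z ∧ M'.opNorm y' ≤ M.opNorm z := by
  classical
  obtain ⟨F, c, hc⟩ := hd z ε hε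
  obtain ⟨K, iK, e, g, g', h1, h2, h3, h4, h5⟩ :=
    exists_ext (F.biUnion fun t => t.support) J iJ f f' hf hf'
  refine ⟨K, iK, e, g, g', h1, h2, h3, h4, ?_⟩
  have hg := sub_psys hW h1
  have hg' := sub_psys hW' h2
  obtain ⟨y, hy, hyn, hyd⟩ := proj hg z
  obtain ⟨y', hy'⟩ := exists_Mt hy (sub W' g')
  refine ⟨y, y', hy', ?_, hyn, ?_⟩
  · refine lt_of_le_of_lt (hyd _ (Submodule.sum_mem _ fun t ht => Submodule.smul_mem _ _ ?_)) hc
    refine Submodule.subset_span ⟨t.comapDomain g h1.injOn, ?_⟩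
    unfold sub
    rw [Finsupp.mapDomain_comapDomain g h1]
    intro i hi
    exact h5 i (Finset.mem_biUnion.2 ⟨t, ht, hi⟩)
  · rw [← hy'.norm_eq hg hg']
    exact hyn

theorem Mt_term {J : Type} [Fintype J] {w : PV J → M.E} {w' : PV J → M'.E} (hw : PSys M.τ w)
    (hw' : PSys M'.τ w') {n : ℕ} (t : TM (Fin n)) {x : Fin n → M.E} {x' : Fin n → M'.E}
    (h : ∀ k, Mt w w' (x k) (x' k)) : Mt w w' (tval M x t) (tval M' x' t) := by
  induction t with
  | var v => exact h v
  | one => exact Mt.one hw hw'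
  | add s t hs ht => exact hs.add ht
  | mul s t hs ht => exact hs.mul hw hw' ht
  | adj s hs => exact hs.st hw hw'
  | scal c s hs => exact hs.smul c

/-- the invariance of `φ` under matchings -/
def Inv (M M' : TVN) {I I' : Type} (W : PV I → M.E) (W' : PV I' → M'.E) {n : ℕ} (φ : FM n) :
    Prop :=
  ∀ (J : Type) (_ : Fintype J) (f : J → I) (f' : J → I'), Function.Injective f →
    Function.Injective f' → ∀ (x : Fin n → M.E) (x' : Fin n → M'.E),
    (∀ k, Mt (sub W f) (sub W' f') (x k) (x' k)) → fv M φ x = fv M' φ x'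

theorem Inv.symm {n : ℕ} {φ : FM n} (h : Inv M M' W W' φ) : Inv M' M W' W φ :=
  fun J iJ f f' hf hf' x x' hx => (h J iJ f' f hf' hf x' x fun k => (hx k).symm).symm

theorem approx [Infinite I'] (hW : PSys M.τ W) (hd : Dn M W) (hW' : PSys M'.τ W')
    {n : ℕ} {φ : FM (n + 1)} (h : Inv M M' W W' φ) (J : Type) (iJ : Fintype J)
    (f : J → I) (f' : J → I') (hf : Function.Injective f)
    (hf' : Function.Injective f') (x : Fin n → M.E) (x' : Fin n → M'.E)
    (hx : ∀ k, Mt (sub W f) (sub W' f') (x k) (x' k)) (s : ℕ) (z : M.Ball s) (ε : ℝ)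
    (hε : 0 < ε) : ∃ z' : M'.Ball s,
      |fv M φ (Fin.cons z.1 x) - fv M' φ (Fin.cons z'.1 x')| ≤ ε := by
  obtain ⟨D, hD, hxD⟩ := exists_max fun k => M.opNorm (x k)
  obtain ⟨δ, hδ, h1⟩ := (UC_fm M φ (max D s) (hD.trans (le_max_left _ _))).uc ε hε
  obtain ⟨K, iK, e, g, g', g1, g2, g3, g4, y, y', hy, hzy, hyz, hyz'⟩ :=
    forth hW hd hW' J iJ f f' hf hf' z.1 δ hδ
  refine ⟨⟨y', hyz'.trans z.2⟩, ?_⟩
  have h2 : fv M φ (Fin.cons y x) = fv M' φ (Fin.cons y' x') := by
    refine h K iK g g' g1 g2 _ _ fun k => ?_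
    refine Fin.cases ?_ (fun k => ?_) k
    · rw [Fin.cons_zero, Fin.cons_zero]
      exact hy
    · rw [Fin.cons_succ, Fin.cons_succ]
      exact Mt_lift g3 g4 (hx k)
  show |fv M φ (Fin.cons z.1 x) - fv M' φ (Fin.cons y' x')| ≤ ε
  rw [← h2]
  refine h1 _ _ ?_ ?_ ?_
  · intro k
    refine Fin.cases ?_ (fun k => ?_) k
    · rw [Fin.cons_zero]
      exact z.2.trans (le_max_right _ _)
    · rw [Fin.cons_succ]
      exact (hxD k).trans (le_max_left _ _)
  · intro k
    refine Fin.cases ?_ (fun k => ?_) k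
    · rw [Fin.cons_zero]
      exact hyz.trans (z.2.trans (le_max_right _ _))
    · rw [Fin.cons_succ]
      exact (hxD k).trans (le_max_left _ _)
  · intro k
    refine Fin.cases ?_ (fun k => ?_) k
    · rw [Fin.cons_zero, Fin.cons_zero]
      exact hzy.le
    · rw [Fin.cons_succ, Fin.cons_succ, sub_self, M.trAlg.n2_zero]
      exact hδ.le

theorem fv_bdd {n : ℕ} (φ : FM (n + 1)) (x : Fin n → M.E) (s : ℕ) :
    ∃ C : ℝ, ∀ z : M.Ball s, |fv M φ (Fin.cons z.1 x)| ≤ C := by
  obtain ⟨D, hD, hxD⟩ := exists_max fun k => M.opNorm (x k)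
  obtain ⟨C, hC⟩ := (UC_fm M φ (max D s) (hD.trans (le_max_left _ _))).bd
  refine ⟨C, fun z => hC _ fun k => ?_⟩
  refine Fin.cases ?_ (fun k => ?_) k
  · rw [Fin.cons_zero]
    exact z.2.trans (le_max_right _ _)
  · rw [Fin.cons_succ]
    exact (hxD k).trans (le_max_left _ _)

theorem iSup_le_aux {α β : Type} [Nonempty α] (f : α → ℝ) (g : β → ℝ) (C : ℝ)
    (hg : ∀ b, |g b| ≤ C) (h : ∀ a (ε : ℝ), 0 < ε → ∃ b, |f a - g b| ≤ ε) :
    (⨆ a, f a) ≤ ⨆ b, g b := by
  refine ciSup_le fun a => le_of_forall_pos_le_add fun ε hε => ?_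
  obtain ⟨b, hb⟩ := h a ε hε
  have hb' : BddAbove (Set.range g) := ⟨C, by rintro _ ⟨i, rfl⟩; exact (abs_le.1 (hg i)).2⟩
  have h1 := le_ciSup hb' b
  have h2 := (abs_le.1 hb).2
  linarith

theorem sup_le [Infinite I'] (hW : PSys M.τ W) (hd : Dn M W) (hW' : PSys M'.τ W')
    {n : ℕ} {φ : FM (n + 1)} (h : Inv M M' W W' φ) (J : Type) (iJ : Fintype J)
    (f : J → I) (f' : J → I') (hf : Function.Injective f)
    (hf' : Function.Injective f') (x : Fin n → M.E) (x' : Fin n → M'.E)
    (hx : ∀ k, Mt (sub W f) (sub W' f') (x k) (x' k)) (s : ℕ) :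
    (⨆ y : M.Ball s, fv M φ (Fin.cons y.1 x)) ≤ ⨆ y : M'.Ball s, fv M' φ (Fin.cons y.1 x') ∧
    (⨆ y : M.Ball s, -fv M φ (Fin.cons y.1 x)) ≤
      ⨆ y : M'.Ball s, -fv M' φ (Fin.cons y.1 x') := by
  obtain ⟨C, hC⟩ := fv_bdd (M := M') φ x' s
  constructor
  · exact iSup_le_aux _ _ C hC fun a ε hε => approx hW hd hW' h J iJ f f' hf hf' x x' hx s a ε hε
  · refine iSup_le_aux _ _ C (fun z => by rw [abs_neg]; exact hC z) fun a ε hε => ?_
    obtain ⟨b, hb⟩ := approx hW hd hW' h J iJ f f' hf hf' x x' hx s a ε hε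
    refine ⟨b, ?_⟩
    rw [neg_sub_neg, abs_sub_comm]
    exact hb

/-- the back and forth argument -/
theorem inv_all [Infinite I] [Infinite I'] (hW : PSys M.τ W) (hd : Dn M W) (hW' : PSys M'.τ W')
    (hd' : Dn M' W') {n : ℕ} (φ : FM n) : Inv M M' W W' φ := by
  induction φ with
  | re t =>
    intro J iJ f f' hf hf' x x' hx
    show (M.τ (tval M x t)).re = (M'.τ (tval M' x' t)).re
    rw [(Mt_term (sub_psys hW hf) (sub_psys hW' hf') t hx).trace (sub_psys hW hf)
      (sub_psys hW' hf')]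
  | im t =>
    intro J iJ f f' hf hf' x x' hx
    show (M.τ (tval M x t)).im = (M'.τ (tval M' x' t)).im
    rw [(Mt_term (sub_psys hW hf) (sub_psys hW' hf') t hx).trace (sub_psys hW hf)
      (sub_psys hW' hf')]
  | nrm t =>
    intro J iJ f f' hf hf' x x' hx
    show n2 M.τ (tval M x t) = n2 M'.τ (tval M' x' t)
    exact (Mt_term (sub_psys hW hf) (sub_psys hW' hf') t hx).n2_eq (sub_psys hW hf)
      (sub_psys hW' hf')
  | conn u φ ih =>
    intro J iJ f f' hf hf' x x' hx
    show (u fun i => fv M (φ i) x) = u fun i => fv M' (φ i) x'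
    congr 1
    funext i
    exact ih i J iJ f f' hf hf' x x' hx
  | sup s φ ih =>
    intro J iJ f f' hf hf' x x' hx
    rw [fv_sup, fv_sup]
    exact le_antisymm (sup_le hW hd hW' ih J iJ f f' hf hf' x x' hx s).1
      (sup_le hW' hd' hW ih.symm J iJ f' f hf' hf x' x (fun k => (hx k).symm) s).1
  | inf s φ ih =>
    intro J iJ f f' hf hf' x x' hx
    rw [fv_inf, fv_inf]
    congr 1
    exact le_antisymm (sup_le hW hd hW' ih J iJ f f' hf hf' x x' hx s).2
      (sup_le hW' hd' hW ih.symm J iJ f' f hf' hf x' x (fun k => (hx k).symm) s).2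

/-- elementary equivalence -/
theorem elemEq [Infinite I] [Infinite I'] (hW : PSys M.τ W) (hd : Dn M W) (hW' : PSys M'.τ W')
    (hd' : Dn M' W') : (str M).ElemEq (str M') := by
  intro φ
  have h := inv_all hW hd hW' hd' φ Empty inferInstance (fun i => i.elim) (fun i => i.elim)
    (fun i => i.elim) (fun i => i.elim) Fin.elim0 Fin.elim0 (fun k => k.elim0)
  exact h

/-- the values of formulas at Pauli strings do not change under injections of the index set -/
theorem inv_inj [Infinite I] (hW : PSys M.τ W) (hd : Dn M W) (π : I → I)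
    (hπ : Function.Injective π) {n : ℕ} (φ : FM n) (u : Fin n → PV I) :
    fv M φ (fun k => W (u k)) = fv M φ (fun k => W ((u k).mapDomain π)) := by
  classical
  set T : Finset I := Finset.univ.biUnion fun k => (u k).support with hT
  refine inv_all hW hd hW hd φ T inferInstance Subtype.val (fun t => π t.1)
    Subtype.val_injective (fun a b h => Subtype.ext (hπ h)) _ _ fun k => ?_
  have hk : ∀ i ∈ (u k).support, i ∈ Set.range (Subtype.val : T → I) := by
    intro i hi
    exact ⟨⟨i, Finset.mem_biUnion.2 ⟨k, Finset.mem_univ _, hi⟩⟩, rfl⟩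
  set c : PV T := (u k).comapDomain Subtype.val Subtype.val_injective.injOn with hc
  have h1 : c.mapDomain Subtype.val = u k :=
    Finsupp.mapDomain_comapDomain _ Subtype.val_injective _ hk
  have h2 : c.mapDomain (fun t => π t.1) = (u k).mapDomain π := by
    rw [← h1, ← Finsupp.mapDomain_comp]
    rfl
  have h3 := Mt.gen (w := sub W (Subtype.val : T → I)) (w' := sub W (fun t : T => π t.1)) c
  unfold sub at h3
  rw [h1, h2] at h3
  exact h3

end

end Run7.h812.Simp
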