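import Mathlib
import Pool.Agent.Run7.h812.Simp.BF

/-!
The hyperfinite factor over an arbitrary index set, on `ℓ²` of the Pauli strings.
-/

set_option autoImplicit false
set_option linter.unusedSectionVars false

open scoped ENNReal lp ComplexOrder InnerProductSpace

namespace Run7.h812.Simp

open Pool.Agent.H504R3
open Pool.Agent.Helper278 (n2 n2_nonneg)
open Pool.Agent.Helper436.SM (sg sg_add sg_mul_self star_sg norm_sg)

/-- the Hilbert space -/
abbrev Hs (I : Type) : Type := lp (fun _ : PV I => ℂ) 2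

section

variable {I : Type}

theorem memlp_s (s : PV I → ZMod 2) (v : PV I) (ξ : Hs I) :
    Memℓp (fun u => sg (s u) * ξ (u + v)) 2 := by
  have h2 : (0 : ℝ) < (2 : ℝ≥0∞).toReal := by norm_num
  rw [memℓp_gen_iff h2]
  have h1 : Summable fun y => ‖ξ (y + v)‖ ^ (2 : ℝ≥0∞).toReal :=
    ((Equiv.addRight v).summable_iff (f := fun y => ‖ξ y‖ ^ (2 : ℝ≥0∞).toReal)).mpr
      ((lp.memℓp ξ).summable h2)
  refine h1.congr fun y => ?_
  rw [norm_mul, norm_sg, one_mul]

/-- signed translations -/
noncomputable def sop (s : PV I → ZMod 2) (v : PV I) : Hs I →L[ℂ] Hs I :=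
  LinearMap.mkContinuous
    { toFun := fun ξ => ⟨fun u => sg (s u) * ξ (u + v), memlp_s s v ξ⟩
      map_add' := fun ξ η => by
        ext y
        simp only [lp.coeFn_add, Pi.add_apply]
        exact mul_add _ _ _
      map_smul' := fun c ξ => by
        ext y
        simp only [lp.coeFn_smul, Pi.smul_apply, RingHom.id_apply, smul_eq_mul]
        exact mul_left_comm _ _ _ } 1 (by
    intro ξ
    have h2 : (0 : ℝ) < (2 : ℝ≥0∞).toReal := by norm_num
    rw [one_mul]
    refine lp.norm_le_of_tsum_le h2 (norm_nonneg _) ?_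
    rw [lp.norm_rpow_eq_tsum h2]
    rw [← (Equiv.addRight v).tsum_eq (fun y => ‖ξ y‖ ^ (2 : ℝ≥0∞).toReal)]
    refine le_of_eq (tsum_congr fun y => ?_)
    change ‖sg (s y) * ξ (y + v)‖ ^ (2 : ℝ≥0∞).toReal = _
    rw [norm_mul, norm_sg, one_mul]
    rfl)

theorem sop_apply (s : PV I → ZMod 2) (v : PV I) (ξ : Hs I) (u : PV I) :
    sop s v ξ u = sg (s u) * ξ (u + v) := rfl

theorem ext_op {S T : Hs I →L[ℂ] Hs I} (h : ∀ ξ u, S ξ u = T ξ u) : S = T := by
  ext ξ u
  exact h ξ u

theorem add_add_self (u v : PV I) : u + v + v = u := by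
  rw [add_assoc, pv_add_self, add_zero]

theorem star_sop (s : PV I → ZMod 2) (v : PV I) :
    star (sop s v) = sop (fun u => s (u + v)) v := by
  rw [ContinuousLinearMap.star_eq_adjoint]
  symm
  rw [ContinuousLinearMap.eq_adjoint_iff]
  intro ξ η
  rw [lp.inner_eq_tsum, lp.inner_eq_tsum, ← (Equiv.addRight v).tsum_eq]
  refine tsum_congr fun y => ?_
  have e : (Equiv.addRight v) y = y + v := rfl
  rw [e, sop_apply, sop_apply, add_add_self]
  rw [← smul_eq_mul, ← smul_eq_mul, inner_smul_left, inner_smul_right]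
  congr 1
  exact star_sg _

/-- left multiplication by the string `v` -/
noncomputable def lam (v : PV I) : Hs I →L[ℂ] Hs I := sop (fun u => bg v (u + v)) v

/-- right multiplication by the string `v` -/
noncomputable def rho (v : PV I) : Hs I →L[ℂ] Hs I := sop (fun u => bg (u + v) v) v

theorem lam_apply (v : PV I) (ξ : Hs I) (u : PV I) :
    lam v ξ u = sg (bg v (u + v)) * ξ (u + v) := rfl

theorem rho_apply (v : PV I) (ξ : Hs I) (u : PV I) :
    rho v ξ u = sg (bg (u + v) v) * ξ (u + v) := rfl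

theorem lam_zero : lam (0 : PV I) = 1 := by
  refine ext_op fun ξ u => ?_
  rw [lam_apply, bg_zero_left, add_zero]
  show sg 0 * ξ u = ξ u
  simp [sg]

theorem lam_mul (v w : PV I) : lam v * lam w = sg (bg v w) • lam (v + w) := by
  refine ext_op fun ξ u => ?_
  show lam v (lam w ξ) u = sg (bg v w) • lam (v + w) ξ u
  rw [lam_apply, lam_apply, lam_apply, smul_eq_mul, ← mul_assoc, ← mul_assoc, ← sg_add, ← sg_add,
    ← add_assoc]
  congr 2
  simp only [bg_add_left, bg_add_right]
  have e : ∀ a b c d f g : ZMod 2, a + b + (c + d + f) = g + (a + c + (b + d) + (g + f)) := by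
    decide
  exact e _ _ _ _ _ _

theorem star_lam (v : PV I) : star (lam v) = sg (bg v v) • lam v := by
  unfold lam
  rw [star_sop]
  refine ext_op fun ξ u => ?_
  show _ = sg (bg v v) • sop (fun u => bg v (u + v)) v ξ u
  rw [sop_apply, sop_apply, smul_eq_mul, ← mul_assoc, ← sg_add]
  congr 2
  simp only [bg_add_right]
  have e : ∀ a b : ZMod 2, a + b + b = b + (a + b) := by decide
  exact e _ _

theorem star_rho (v : PV I) : star (rho v) = sg (bg v v) • rho v := by
  unfold rho
  rw [star_sop]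
  refine ext_op fun ξ u => ?_
  show _ = sg (bg v v) • sop (fun u => bg (u + v) v) v ξ u
  rw [sop_apply, sop_apply, smul_eq_mul, ← mul_assoc, ← sg_add]
  congr 2
  simp only [bg_add_left]
  have e : ∀ a b : ZMod 2, a + b + b = b + (a + b) := by decide
  exact e _ _

theorem lam_rho (v w : PV I) : rho w * lam v = lam v * rho w := by
  refine ext_op fun ξ u => ?_
  show rho w (lam v ξ) u = lam v (rho w ξ) u
  rw [lam_apply, rho_apply, rho_apply, lam_apply, ← mul_assoc, ← mul_assoc, ← sg_add, ← sg_add,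
    add_right_comm u v w]
  congr 2
  simp only [bg_add_left, bg_add_right]
  have e : ∀ a b c d f : ZMod 2, a + b + (c + d + f) = c + f + (a + b + d) := by decide
  exact e _ _ _ _ _

variable (I) in
/-- the von Neumann algebra -/
noncomputable def vnI : VonNeumannAlgebra (Hs I) where
  toStarSubalgebra := StarSubalgebra.centralizer ℂ (Set.range (rho : PV I → _))
  centralizer_centralizer' := by
    show Set.centralizer (Set.centralizer (Set.centralizer _)) = Set.centralizer _
    exact Set.centralizer_centralizer_centralizer _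

theorem mem_vnI {x : Hs I →L[ℂ] Hs I} : x ∈ vnI I ↔ ∀ v, rho v * x = x * rho v := by
  show x ∈ StarSubalgebra.centralizer ℂ (Set.range (rho : PV I → _)) ↔ _
  rw [StarSubalgebra.mem_centralizer_iff]
  constructor
  · intro h v
    exact (h _ ⟨v, rfl⟩).1
  · rintro h _ ⟨v, rfl⟩
    refine ⟨h v, ?_⟩
    rw [star_rho, smul_mul_assoc, mul_smul_comm, h v]

/-- the basis vectors -/
noncomputable def e (v : PV I) : Hs I := by
  classical exact lp.single 2 v (1 : ℂ)

theorem e_self (v : PV I) : (e v) v = 1 := by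
  classical exact lp.single_apply_self _ _ _

theorem e_ne {u v : PV I} (h : u ≠ v) : (e v) u = 0 := by
  classical exact lp.single_apply_ne _ _ _ h

theorem inner_e (v : PV I) (ξ : Hs I) : ⟪e v, ξ⟫_ℂ = ξ v := by
  classical
  have := lp.inner_single_left (𝕜 := ℂ) v (1 : ℂ) ξ
  rw [show e v = lp.single 2 v (1 : ℂ) from rfl, this]
  simp

theorem rho_e (v : PV I) : rho v (e 0) = e v := by
  ext u
  rw [rho_apply]
  by_cases h : u = v
  · subst h
    rw [pv_add_self, bg_zero_left, e_self, e_self]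
    simp [sg]
  · rw [e_ne h, e_ne, mul_zero]
    intro h0
    exact h ((pv_add_eq_zero u v).1 h0)

theorem lam_e (v : PV I) : lam v (e 0) = e v := by
  ext u
  rw [lam_apply]
  by_cases h : u = v
  · subst h
    rw [pv_add_self, bg_zero_right, e_self, e_self]
    simp [sg]
  · rw [e_ne h, e_ne, mul_zero]
    intro h0
    exact h ((pv_add_eq_zero u v).1 h0)

theorem op_e {x : Hs I →L[ℂ] Hs I} (hx : x ∈ vnI I) (v u : PV I) :
    x (e v) u = sg (bg (u + v) v) * x (e 0) (u + v) := by
  rw [← rho_e v, ← rho_apply]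
  have := mem_vnI.1 hx v
  have h2 : (rho v * x) (e 0) = (x * rho v) (e 0) := by rw [this]
  have h3 : rho v (x (e 0)) = x (rho v (e 0)) := h2
  rw [h3]

theorem star_e {x : Hs I →L[ℂ] Hs I} (hx : x ∈ vnI I) (u : PV I) :
    star ((star x) (e 0) u) = sg (bg u u) * x (e 0) u := by
  rw [← inner_e u (star x (e 0)), ContinuousLinearMap.star_eq_adjoint,
    ContinuousLinearMap.adjoint_inner_right]
  have h1 : star (⟪x (e u), e 0⟫_ℂ) = ⟪e 0, x (e u)⟫_ℂ := inner_conj_symm _ _
  rw [h1, inner_e, op_e hx, zero_add]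

theorem tau_mul {x y : Hs I →L[ℂ] Hs I} (hx : x ∈ vnI I) :
    (x (y (e 0))) 0 = ∑' u, sg (bg u u) * (x (e 0) u * y (e 0) u) := by
  rw [← inner_e 0 (x (y (e 0)))]
  have h1 : ⟪e 0, x (y (e 0))⟫_ℂ = ⟪(star x) (e 0), y (e 0)⟫_ℂ := by
    rw [ContinuousLinearMap.star_eq_adjoint, ContinuousLinearMap.adjoint_inner_left]
  rw [h1, lp.inner_eq_tsum]
  refine tsum_congr fun u => ?_
  have h2 : ⟪(star x) (e 0) u, y (e 0) u⟫_ℂ = star ((star x) (e 0) u) * y (e 0) u := by
    rw [mul_comm]; rfl
  rw [h2, star_e hx, mul_assoc]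

theorem op_zero {x : Hs I →L[ℂ] Hs I} (hx : x ∈ vnI I) (h : x (e 0) = 0) : x = 0 := by
  have h1 : ∀ v, x (e v) = 0 := by
    intro v
    ext u
    rw [op_e hx, h]
    simp
  have h2 : ∀ u, star x (e u) = 0 := by
    intro u
    ext w
    rw [← inner_e w, ContinuousLinearMap.star_eq_adjoint,
      ContinuousLinearMap.adjoint_inner_right, h1, inner_zero_left]
    rfl
  refine ext_op fun ξ u => ?_
  rw [← inner_e u (x ξ)]
  have h3 : ⟪e u, x ξ⟫_ℂ = ⟪(star x) (e u), ξ⟫_ℂ := by
    rw [ContinuousLinearMap.star_eq_adjoint, ContinuousLinearMap.adjoint_inner_left]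
  rw [h3, h2, inner_zero_left]
  rfl

variable (I) in
/-- the trace -/
noncomputable def tauI : (vnI I).toStarSubalgebra →ₗ[ℂ] ℂ where
  toFun x := (x : Hs I →L[ℂ] Hs I) (e 0) 0
  map_add' _ _ := rfl
  map_smul' _ _ := rfl

variable (I) in
/-- the hyperfinite factor over `I` -/
noncomputable def RI : TVN where
  H := Hs I
  N := vnI I
  τ := tauI I
  map_one := by
    show (e (0 : PV I)) 0 = 1
    exact e_self 0
  tracial x y := by
    show (x.1 (y.1 (e 0))) 0 = (y.1 (x.1 (e 0))) 0
    rw [tau_mul x.2, tau_mul y.2]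
    refine tsum_congr fun u => ?_
    rw [mul_comm (x.1 (e 0) u)]
  faithful x hx := by
    have h1 : ((star x.1) (x.1 (e 0))) 0 = 0 := hx
    rw [← inner_e 0, ContinuousLinearMap.star_eq_adjoint,
      ContinuousLinearMap.adjoint_inner_right, inner_self_eq_zero] at h1
    exact Subtype.ext (op_zero x.2 h1)
  normal := by
    refine ⟨fun k => if k = 0 then e 0 else 0, ?_, fun x => ?_⟩
    · refine summable_of_ne_finset_zero (s := {0}) fun k hk => ?_
      rw [Finset.mem_singleton] at hk
      simp only [if_neg hk]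
      simp
    · rw [tsum_eq_single 0]
      · simp only [if_true]
        rw [inner_e]
        rfl
      · intro k hk
        simp only [if_neg hk]
        rw [inner_zero_left]

/-- the Pauli strings in `RI` -/
noncomputable def lamI (v : PV I) : (RI I).E := ⟨lam v, mem_vnI.2 fun w => lam_rho v w⟩

theorem psys_lamI : PSys (RI I).τ (lamI : PV I → (RI I).E) where
  zero := Subtype.ext lam_zero
  mul v w := Subtype.ext (lam_mul v w)
  st v := Subtype.ext (star_lam v)
  one := (RI I).map_one
  trace v hv := by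
    show (lam v (e 0)) 0 = 0
    rw [lam_e, e_ne (Ne.symm hv)]

/-- the operator -/
noncomputable def op (x : (RI I).E) : Hs I →L[ℂ] Hs I := x.1

theorem op_sub (x y : (RI I).E) : op (x - y) = op x - op y := rfl

theorem op_lam (v : PV I) : op (lamI v) = lam v := rfl

theorem op_sum (F : Finset (PV I)) (c : PV I → ℂ) :
    op (∑ t ∈ F, c t • lamI t) = ∑ t ∈ F, c t • lam t := by
  have h4 := map_sum (vnI I).toStarSubalgebra.subtype (fun t => c t • lamI t) F
  exact h4

theorem n2_RI (x : (RI I).E) : n2 (RI I).τ x = ‖op x (e 0)‖ := by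
  have h1 : (RI I).τ (star x * x) = ((star (op x)) (op x (e 0))) 0 := rfl
  unfold n2
  rw [h1, ← inner_e 0, ContinuousLinearMap.star_eq_adjoint,
    ContinuousLinearMap.adjoint_inner_right, inner_self_eq_norm_sq_to_K]
  have h2 : (((‖op x (e 0)‖ : ℂ) ^ 2)).re = ‖op x (e 0)‖ ^ 2 := by
    rw [← Complex.ofReal_pow, Complex.ofReal_re]
  exact (congrArg Real.sqrt h2).trans (Real.sqrt_sq (norm_nonneg _))

theorem dn_lamI : Dn (RI I) (lamI : PV I → (RI I).E) := by
  classical
  intro x ε hε
  set f : Hs I := op x (e 0) with hf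
  have h1 : HasSum (fun i => lp.single 2 i (f i)) f := lp.hasSum_single (by norm_num) f
  obtain ⟨F, hF⟩ := ((Metric.tendsto_nhds.1 h1) ε hε).exists
  refine ⟨F, fun t => f t, ?_⟩
  rw [n2_RI, op_sub, op_sum]
  have h2 : (∑ t ∈ F, f t • lam t) (e 0) = (∑ t ∈ F, lp.single 2 t (f t) : Hs I) := by
    have h6 : (∑ t ∈ F, f t • lam t) (e 0) = ∑ t ∈ F, (f t • lam t) (e 0) :=
      map_sum (ContinuousLinearMap.apply ℂ (Hs I) (e (0 : PV I))) _ F
    rw [h6]
    refine Finset.sum_congr rfl fun t _ => ?_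
    show f t • lam t (e 0) = _
    rw [lam_e]
    have h5 := lp.single_smul (E := fun _ : PV I => ℂ) 2 t (f t) (1 : ℂ)
    rw [smul_eq_mul, mul_one] at h5
    rw [h5]
    rfl
  have h3 : (op x - ∑ t ∈ F, f t • lam t) (e 0) = f - (∑ t ∈ F, lp.single 2 t (f t) : Hs I) := by
    rw [← h2]
    rfl
  rw [h3, ← dist_eq_norm, dist_comm]
  exact hF

end

end Run7.h812.Simp
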