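import Mathlib
import Pool.Agent.Run7.h812.Simp.Model

/-!
The algebra `RI ℕ` is the hyperfinite factor.
-/

set_option autoImplicit false
set_option linter.unusedSectionVars false

open scoped ComplexOrder

namespace Run7.h812.Simp

open Pool.Agent.H504R3
open Pool.Agent.H504R3.S (Str str tval sub_eq exists_tvn isTVN hyp_of norm2_eq)
open Pool.Agent.Helper278 (n2 n2_nonneg)
open Pool.Agent.Helper436.SM (sg sg_add sg_mul_self star_sg norm_sg)

/-- `RI ℕ` -/
noncomputable abbrev RN : TVN := RI ℕ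

/-- Pauli `X` at `k` -/
noncomputable def XX (k : ℕ) : RN.E := lamI (Finsupp.single k (1, 0))

/-- Pauli `Z` at `k` -/
noncomputable def ZZ (k : ℕ) : RN.E := lamI (Finsupp.single k (0, 1))

theorem bgs (k l : ℕ) (c d : ZMod 2 × ZMod 2) :
    bg (Finsupp.single k c) (Finsupp.single l d) = if l = k then c.2 * d.1 else 0 := by
  unfold bg
  rw [Finsupp.sum_single_index (by simp)]
  split_ifs with h
  · rw [h, Finsupp.single_eq_same]
  · rw [Finsupp.single_eq_of_ne (Ne.symm h)]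
    simp

theorem sg0 : sg 0 = 1 := by simp [sg]

theorem sg1 : sg 1 = -1 := by simp [sg]

theorem X_sq (k : ℕ) : XX k * XX k = 1 := by
  unfold XX
  rw [psys_lamI.mul, bgs, if_pos rfl, zero_mul, sg0, one_smul, pv_add_self, psys_lamI.zero]

theorem Z_sq (k : ℕ) : ZZ k * ZZ k = 1 := by
  unfold ZZ
  rw [psys_lamI.mul, bgs, if_pos rfl, mul_zero, sg0, one_smul, pv_add_self, psys_lamI.zero]

theorem ZX (k : ℕ) : ZZ k * XX k = -(XX k * ZZ k) := by
  unfold ZZ XX
  rw [psys_lamI.mul, psys_lamI.mul, bgs, bgs, if_pos rfl, if_pos rfl, mul_one, mul_zero, sg0, sg1,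
    one_smul, neg_smul, one_smul, add_comm]

theorem star_X (k : ℕ) : star (XX k) = XX k := by
  unfold XX
  rw [psys_lamI.st, bgs, if_pos rfl, zero_mul, sg0, one_smul]

theorem star_Z (k : ℕ) : star (ZZ k) = ZZ k := by
  unfold ZZ
  rw [psys_lamI.st, bgs, if_pos rfl, mul_zero, sg0, one_smul]

theorem comm_single {k l : ℕ} (h : k ≠ l) (c d : ZMod 2 × ZMod 2) :
    Commute (lamI (Finsupp.single k c) : RN.E) (lamI (Finsupp.single l d)) := by
  show _ * _ = _ * _
  rw [psys_lamI.mul, psys_lamI.mul, bgs, bgs, if_neg h, if_neg (Ne.symm h), add_comm]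

/-- the projection -/
noncomputable def PP (k : ℕ) : RN.E := (2⁻¹ : ℂ) • (1 + ZZ k)

/-- powers of `X` -/
noncomputable def xx (k : ℕ) (a : Fin 2) : RN.E := if a = 0 then 1 else XX k

/-- the matrix units -/
noncomputable def mu (k : ℕ) (a b : Fin 2) : RN.E := xx k a * PP k * xx k b

theorem PP_sq (k : ℕ) : PP k * PP k = PP k := by
  unfold PP
  rw [smul_mul_smul_comm, mul_add, add_mul, add_mul, Z_sq]
  have : (1 : RN.E) * 1 + ZZ k * 1 + (1 * ZZ k + 1) = (2 : ℂ) • (1 + ZZ k) := by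
    rw [two_smul, one_mul, one_mul, mul_one]; abel
  rw [this, smul_smul]
  norm_num

theorem PXP (k : ℕ) : PP k * XX k * PP k = 0 := by
  unfold PP
  rw [smul_mul_assoc, smul_mul_smul_comm]
  have : (1 + ZZ k) * XX k * (1 + ZZ k) = 0 := by
    have h1 : (1 + ZZ k) * XX k * (1 + ZZ k) =
        XX k + XX k * ZZ k + ZZ k * XX k + ZZ k * XX k * ZZ k := by noncomm_ring
    rw [h1, ZX, neg_mul, mul_assoc, Z_sq]
    simp
  rw [this, smul_zero]

theorem star_PP (k : ℕ) : star (PP k) = PP k := by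
  unfold PP
  rw [star_smul, star_add, star_one, star_Z]
  congr 1
  simp

theorem xx_star (k : ℕ) (a : Fin 2) : star (xx k a) = xx k a := by
  unfold xx
  split_ifs
  · rw [star_one]
  · rw [star_X]

theorem xx_sq (k : ℕ) (a : Fin 2) : xx k a * xx k a = 1 := by
  unfold xx
  split_ifs
  · rw [one_mul]
  · rw [X_sq]

theorem xx_ne (k : ℕ) {a b : Fin 2} (h : a ≠ b) : xx k a * xx k b = XX k := by
  unfold xx
  fin_cases a <;> fin_cases b <;> simp at h ⊢

theorem mu_units (k : ℕ) : (str RN).IsMatrixUnits (mu k) where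
  mul := by
    intro a b c d
    show mu k a b * mu k c d = _
    have h1 : mu k a b * mu k c d = xx k a * (PP k * (xx k b * xx k c) * PP k) * xx k d := by
      unfold mu; noncomm_ring
    rw [h1]
    by_cases h : b = c
    · refine Eq.trans ?_ (if_pos h).symm
      subst h
      rw [xx_sq, mul_one, PP_sq]
      rfl
    · refine Eq.trans ?_ (if_neg h).symm
      rw [xx_ne k h, PXP, mul_zero, zero_mul]
      exact (zero_smul ℂ (1 : RN.E)).symm
  adj := by
    intro a b
    show star (mu k a b) = mu k b a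
    unfold mu
    rw [star_mul, star_mul, xx_star, xx_star, star_PP, mul_assoc]
  one := by
    show mu k 0 0 + mu k 1 1 = 1
    unfold mu xx
    simp only [if_true, one_ne_zero, if_false, one_mul, mul_one]
    unfold PP
    rw [mul_smul_comm, smul_mul_assoc, ← smul_add, mul_add, add_mul, mul_one, X_sq]
    have h1 : XX k * ZZ k * XX k = -ZZ k := by
      rw [mul_assoc, ZX, mul_neg, ← mul_assoc, X_sq, one_mul]
    rw [h1]
    have h2 : (1 : RN.E) + ZZ k + (1 + -ZZ k) = (2 : ℂ) • (1 : RN.E) := by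
      rw [two_smul]; abel
    rw [h2, smul_smul]
    norm_num

theorem comm_X {k l : ℕ} (h : k ≠ l) : Commute (XX k) (XX l) := comm_single h _ _

theorem comm_ZX {k l : ℕ} (h : k ≠ l) : Commute (ZZ k) (XX l) := comm_single h _ _

theorem comm_ZZ {k l : ℕ} (h : k ≠ l) : Commute (ZZ k) (ZZ l) := comm_single h _ _

theorem comm_xx {k l : ℕ} (h : k ≠ l) (a b : Fin 2) : Commute (xx k a) (xx l b) := by
  unfold xx
  split_ifs
  · exact Commute.one_left _
  · exact Commute.one_left _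
  · exact Commute.one_right _
  · exact comm_X h

theorem comm_PX {k l : ℕ} (h : k ≠ l) (b : Fin 2) : Commute (PP k) (xx l b) := by
  unfold PP xx
  refine Commute.smul_left ?_ _
  split_ifs
  · exact Commute.one_right _
  · exact (Commute.one_left _).add_left (comm_ZX h)

theorem comm_PP {k l : ℕ} (h : k ≠ l) : Commute (PP k) (PP l) := by
  unfold PP
  refine (Commute.smul_left ?_ _).smul_right _
  exact (Commute.one_left _).add_left ((Commute.one_right _).add_right (comm_ZZ h))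

theorem comm_mu {k l : ℕ} (h : k ≠ l) (a b c d : Fin 2) : Commute (mu k a b) (mu l c d) := by
  unfold mu
  refine Commute.mul_left (Commute.mul_left ?_ ?_) ?_
  · exact ((comm_xx h a c).mul_right (comm_PX (Ne.symm h) a).symm).mul_right (comm_xx h a d)
  · exact ((comm_PX h c).mul_right (comm_PP h)).mul_right (comm_PX h d)
  · exact ((comm_xx h b c).mul_right (comm_PX (Ne.symm h) b).symm).mul_right (comm_xx h b d)

theorem X_eq (k : ℕ) : XX k = mu k 0 1 + mu k 1 0 := by
  unfold mu xx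
  simp only [if_true, one_ne_zero, if_false, one_mul, mul_one]
  unfold PP
  rw [smul_mul_assoc, mul_smul_comm, ← smul_add, add_mul, mul_add, one_mul, mul_one, ZX]
  have h2 : XX k + -(XX k * ZZ k) + (XX k + XX k * ZZ k) = (2 : ℂ) • XX k := by
    rw [two_smul]; abel
  rw [h2, smul_smul]
  norm_num

theorem Z_eq (k : ℕ) : ZZ k = mu k 0 0 + (-1 : ℂ) • mu k 1 1 := by
  unfold mu xx
  simp only [if_true, one_ne_zero, if_false, one_mul, mul_one]
  unfold PP
  rw [mul_smul_comm, smul_mul_assoc, smul_comm (-1 : ℂ), ← smul_add, mul_add, add_mul, mul_one,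
    X_sq]
  have h1 : XX k * ZZ k * XX k = -ZZ k := by
    rw [mul_assoc, ZX, mul_neg, ← mul_assoc, X_sq, one_mul]
  rw [h1]
  have h2 : (1 : RN.E) + ZZ k + (-1 : ℂ) • (1 + -ZZ k) = (2 : ℂ) • ZZ k := by
    rw [two_smul, neg_one_smul]; abel
  rw [h2, smul_smul]
  norm_num

/-- the variables -/
noncomputable def gg (v : ℕ × Fin 2 × Fin 2) : RN.E := mu v.1 v.2.1 v.2.2

/-- the values of terms -/
def QQ : Set RN.E := {y | ∃ t : Pool.Agent.H504R3.S.Tm (ℕ × Fin 2 × Fin 2), tval RN gg t = y}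

theorem QQ_one : (1 : RN.E) ∈ QQ := ⟨.one, rfl⟩

theorem QQ_add {x y : RN.E} (hx : x ∈ QQ) (hy : y ∈ QQ) : x + y ∈ QQ := by
  obtain ⟨s, rfl⟩ := hx
  obtain ⟨t, rfl⟩ := hy
  exact ⟨.add s t, rfl⟩

theorem QQ_mul {x y : RN.E} (hx : x ∈ QQ) (hy : y ∈ QQ) : x * y ∈ QQ := by
  obtain ⟨s, rfl⟩ := hx
  obtain ⟨t, rfl⟩ := hy
  exact ⟨.mul s t, rfl⟩

theorem QQ_smul {x : RN.E} (c : ℂ) (hx : x ∈ QQ) : c • x ∈ QQ := by
  obtain ⟨s, rfl⟩ := hx
  exact ⟨.scal c s, rfl⟩

theorem QQ_mu (k : ℕ) (a b : Fin 2) : mu k a b ∈ QQ := ⟨.var (k, a, b), rfl⟩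

theorem QQ_X (k : ℕ) : XX k ∈ QQ := by
  rw [X_eq]
  exact QQ_add (QQ_mu _ _ _) (QQ_mu _ _ _)

theorem QQ_Z (k : ℕ) : ZZ k ∈ QQ := by
  rw [Z_eq]
  exact QQ_add (QQ_mu _ _ _) (QQ_smul _ (QQ_mu _ _ _))

theorem QQ_addv {v w : PV ℕ} (hv : lamI v ∈ QQ) (hw : lamI w ∈ QQ) : lamI (v + w) ∈ QQ := by
  have h : lamI (v + w) = sg (bg v w) • (lamI v * lamI w) := by
    rw [psys_lamI.mul, smul_smul, sg_mul_self, one_smul]
  rw [h]
  exact QQ_smul _ (QQ_mul hv hw)

theorem QQ_zero : lamI (0 : PV ℕ) ∈ QQ := by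
  rw [psys_lamI.zero]
  exact QQ_one

theorem QQ_lam (v : PV ℕ) : lamI v ∈ QQ := by
  induction v using Finsupp.induction_linear with
  | zero => exact QQ_zero
  | add f g hf hg => exact QQ_addv hf hg
  | single k c =>
    obtain ⟨c1, c2⟩ := c
    have e : (Finsupp.single k (c1, c2) : PV ℕ) =
        Finsupp.single k (c1, 0) + Finsupp.single k (0, c2) := by
      rw [← Finsupp.single_add, Prod.mk_add_mk, add_zero, zero_add]
    rw [e]
    have hz : (Finsupp.single k ((0 : ZMod 2), (0 : ZMod 2)) : PV ℕ) = 0 := by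
      rw [show ((0 : ZMod 2), (0 : ZMod 2)) = 0 from rfl, Finsupp.single_zero]
    refine QQ_addv ?_ ?_
    · rcases zmod2_cases c1 with rfl | rfl
      · rw [hz]; exact QQ_zero
      · exact QQ_X k
    · rcases zmod2_cases c2 with rfl | rfl
      · rw [hz]; exact QQ_zero
      · exact QQ_Z k

theorem QQ_sum (F : Finset (PV ℕ)) (c : PV ℕ → ℂ) : ∑ t ∈ F, c t • lamI t ∈ QQ := by
  classical
  induction F using Finset.induction_on with
  | empty =>
    rw [Finset.sum_empty, ← zero_smul ℂ (1 : RN.E)]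
    exact QQ_smul _ QQ_one
  | insert a s ha ih =>
    rw [Finset.sum_insert ha]
    exact QQ_add (QQ_smul _ (QQ_lam a)) ih

theorem exists_hyp : ∃ R : Str, R.IsHyperfinite := by
  refine ⟨str RN, isTVN RN, mu, mu_units, fun k l hkl a b c d => comm_mu hkl a b c d, ?_⟩
  intro z ε hε
  obtain ⟨F, c, h⟩ := dn_lamI (I := ℕ) z ε hε
  obtain ⟨t, ht⟩ := QQ_sum F c
  refine ⟨t, ?_⟩
  have h2 : (str RN).sub z (tval RN gg t) = ((show RN.E from z) - tval RN gg t : RN.E) :=
    sub_eq RN z (tval RN gg t)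
  have h3 : (str RN).norm2 ((str RN).sub z (tval RN gg t)) < ε := by
    rw [h2, ht]
    exact h
  exact h3

end Run7.h812.Simp
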