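import Mathlib
import Pool.Agent.H504R3.SDefs

/-!
# Types, indiscernible sequences, dividing and simplicity for tracial von Neumann algebras

Structures, formulas and elementary equivalence are those of `Pool.Agent.H504R3.SDefs`.
-/

set_option autoImplicit false

namespace Run7.h812.Simp

open Pool.Agent.H504R3.S

/-- Formulas in the variables `x 0, …, x (m - 1)` with parameters indexed by `P`: a formula `φ` in
`n` variables together with the variable or the parameter which is put in for each of them. -/
structure PFm (m : ℕ) (P : Type) : Type where
  /-- the number of variables of `φ` -/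
  n : ℕ
  /-- the formula -/
  φ : Fm n
  /-- the variables and parameters which are put in -/
  v : Fin n → Fin m ⊕ P

/-- The value of a formula with parameters in `M`, when its variables have the values `x` and the
parameters are `b`. -/
noncomputable def PFm.val {m : ℕ} {P : Type} (ψ : PFm m P) (M : Str) (x : Fin m → M.carrier)
    (b : P → M.carrier) : ℝ :=
  ψ.φ.val M fun k => Sum.elim x b (ψ.v k)

/-- `p` is a (complete) type over the subset `B` of `M`, of `m`-tuples in the operator norm ball of
radius `r`: `p` assigns to each formula with parameters from `B` a value, and finitely many of these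
values are always approximately assumed by an `m`-tuple of elements of `M` in the ball of radius
`r`. -/
def IsType (M : Str) (B : Set M.carrier) (m r : ℕ) (p : PFm m B → ℝ) : Prop :=
  ∀ (F : Finset (PFm m B)) (ε : ℝ), 0 < ε →
    ∃ x : Fin m → M.carrier, (∀ i, M.nrm (x i) ≤ r) ∧
      ∀ ψ ∈ F, |ψ.val M x Subtype.val - p ψ| ≤ ε

/-- `j` is an elementary embedding of `M` in `N`. -/
structure IsElementary (M N : Str) (j : M.carrier → N.carrier) : Prop where
  nrm : ∀ x, N.nrm (j x) = M.nrm x
  val : ∀ (n : ℕ) (φ : Fm n) (x : Fin n → M.carrier), φ.val N (fun k => j (x k)) = φ.val M x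

/-- The sequence `b 0, b 1, …` of families indexed by `P` of elements of `N` is indiscernible over
the family `a`: for all formulas with parameters from `a` and from finitely many members of the
sequence, the value does not change when the members of the sequence are replaced by others which
come in the same order. -/
def IsIndiscernible (N : Str) {A P : Type} (a : A → N.carrier) (b : ℕ → P → N.carrier) : Prop :=
  ∀ (n : ℕ) (φ : Fm n) (v : Fin n → A ⊕ (ℕ × P)) (σ : ℕ → ℕ), StrictMono σ →
    φ.val N (fun k => Sum.elim a (fun q => b (σ q.1) q.2) (v k)) =
      φ.val N (fun k => Sum.elim a (fun q => b q.1 q.2) (v k))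

/-- The type `p` over `B` divides over the subset `A` of `B`: there are a tracial von Neumann
algebra `N` which is an elementary extension of `M`, and a sequence `b 0, b 1, …` of families of
elements of `N` indexed by `B`, indiscernible over `A`, with `b 0` the family `B` itself, such that
the union of the `p(x, b k)` is inconsistent: there are finitely many of its conditions and `ε > 0`
such that no `m`-tuple in the ball of radius `r` satisfies these conditions up to `ε`. -/
def Divides (M : Str) (B : Set M.carrier) (m r : ℕ) (p : PFm m B → ℝ) (A : Set M.carrier) : Prop :=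
  ∃ (N : Str) (j : M.carrier → N.carrier) (b : ℕ → B → N.carrier),
    N.IsTVN ∧ IsElementary M N j ∧ (∀ β : B, b 0 β = j β) ∧
    IsIndiscernible N (fun α : A => j α) b ∧
    ∃ (F : Finset (ℕ × PFm m B)) (ε : ℝ), 0 < ε ∧
      ∀ x : Fin m → N.carrier, (∀ i, N.nrm (x i) ≤ r) →
        ∃ q ∈ F, ε < |q.2.val N x (b q.1) - p q.2|

/-- The set `A` is separable for the 2-norm. -/
def IsSepSet (M : Str) (A : Set M.carrier) : Prop :=
  ∃ S : Set M.carrier, S ⊆ A ∧ S.Countable ∧
    ∀ x ∈ A, ∀ ε : ℝ, 0 < ε → ∃ y ∈ S, M.norm2 (M.sub x y) < ε

/-- The theory of `R` is simple: for every model `M` (tracial von Neumann algebra elementarily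
equivalent to `R`), every subset `B` of `M` and every type `p` over `B` of finite tuples in a ball,
there is a separable subset `A` of `B` such that `p` does not divide over `A`. -/
def IsSimple (R : Str) : Prop :=
  ∀ M : Str, M.IsTVN → M.ElemEq R → ∀ (B : Set M.carrier) (m r : ℕ) (p : PFm m B → ℝ),
    IsType M B m r p → ∃ A ⊆ B, IsSepSet M A ∧ ¬ Divides M B m r p A

end Run7.h812.Simp
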