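import Mathlib
import Pool.Agent.Run7.h812.Simp.Model
import Pool.Agent.Run7.h812.Simp.Defs

/-!
The theory of the hyperfinite factor is not simple.
-/

set_option autoImplicit false
set_option linter.unusedSectionVars false

open scoped ComplexOrder
open Filter Topology

namespace Run7.h812.Simp

open Pool.Agent.H504R3
open Pool.Agent.H504R3.S (Str str tval sub_eq exists_tvn isTVN hyp_of norm2_eq)
open Pool.Agent.Helper278 (n2 n2_nonneg)
open Pool.Agent.Helper436.SM (sg sg_add sg_mul_self star_sg norm_sg)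


/-! ### the Paulis -/

/-- an uncountable set -/
abbrev KK : Type := ℕ → Bool

/-- the index set -/
abbrev II : Type := KK ⊕ (KK × ℕ)

instance : Infinite II := inferInstance

instance : Uncountable KK := by
  rw [← Cardinal.aleph0_lt_mk_iff]
  simp [Cardinal.aleph0_lt_continuum]

section

variable {I : Type}

theorem bg_single_left (i : I) (c : ZMod 2 × ZMod 2) (v : PV I) :
    bg (Finsupp.single i c) v = c.2 * (v i).1 := by
  unfold bg
  rw [Finsupp.sum_single_index]
  simp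

theorem bg_single_right (i : I) (c : ZMod 2 × ZMod 2) (v : PV I) :
    bg v (Finsupp.single i c) = (v i).2 * c.1 := by
  classical
  unfold bg Finsupp.sum
  rw [Finset.sum_eq_single i]
  · beta_reduce
    rw [Finsupp.single_eq_same]
  · intro j _ hj
    beta_reduce
    rw [Finsupp.single_eq_of_ne hj]
    simp
  · intro h
    beta_reduce
    rw [Finsupp.notMem_support_iff.1 h]
    simp

end

/-- the string of `a i` -/
noncomputable def va (i : KK) : PV II := Finsupp.single (Sum.inl i) (1, 0)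

/-- the string of `c i k` -/
noncomputable def vc (i : KK) (k : ℕ) : PV II :=
  Finsupp.single (Sum.inl i) (0, 1) + Finsupp.single (Sum.inr (i, k)) (1, 0)

theorem vc_inl (i : KK) (k : ℕ) : vc i k (Sum.inl i) = (0, 1) := by
  unfold vc
  rw [Finsupp.add_apply, Finsupp.single_eq_same, Finsupp.single_eq_of_ne (by simp), add_zero]

theorem vc_inr (i : KK) (k : ℕ) : vc i k (Sum.inr (i, k)) = (1, 0) := by
  unfold vc
  rw [Finsupp.add_apply, Finsupp.single_eq_same, Finsupp.single_eq_of_ne (by simp), zero_add]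

theorem va_inl (i : KK) : va i (Sum.inl i) = (1, 0) := Finsupp.single_eq_same

theorem bg_va (i : KK) (v : PV II) : bg (va i) v = 0 := by
  unfold va
  rw [bg_single_left, zero_mul]

theorem bg_va_right (i : KK) (v : PV II) : bg v (va i) = (v (Sum.inl i)).2 := by
  unfold va
  rw [bg_single_right, mul_one]

theorem bg_vc (i : KK) (k : ℕ) (v : PV II) : bg (vc i k) v = (v (Sum.inl i)).1 := by
  unfold vc
  rw [bg_add_left, bg_single_left, bg_single_left, one_mul, zero_mul, add_zero]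

theorem bg_vc_right (i : KK) (k : ℕ) (v : PV II) :
    bg v (vc i k) = (v (Sum.inr (i, k))).2 := by
  unfold vc
  rw [bg_add_right, bg_single_right, bg_single_right, mul_zero, mul_one, zero_add]

/-- the factor -/
noncomputable abbrev M0 : TVN := RI II

/-- `a i` -/
noncomputable def ea (i : KK) : M0.E := lamI (va i)

/-- `c i k` -/
noncomputable def ec (i : KK) (k : ℕ) : M0.E := lamI (vc i k)

theorem sg_zero : sg 0 = 1 := by simp [sg]

theorem sg_one : sg 1 = -1 := by simp [sg]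

theorem ea_sq (i : KK) : ea i * ea i = 1 := by
  unfold ea
  rw [psys_lamI.mul, bg_va, sg_zero, one_smul, pv_add_self, psys_lamI.zero]

theorem ec_sq (i : KK) (k : ℕ) : ec i k * ec i k = 1 := by
  unfold ec
  rw [psys_lamI.mul, bg_vc, vc_inl, sg_zero, one_smul, pv_add_self, psys_lamI.zero]

theorem star_ea (i : KK) : star (ea i) = ea i := by
  unfold ea
  rw [psys_lamI.st, bg_va, sg_zero, one_smul]

theorem star_ec (i : KK) (k : ℕ) : star (ec i k) = ec i k := by
  unfold ec
  rw [psys_lamI.st, bg_vc, vc_inl, sg_zero, one_smul]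

theorem ec_ea (i : KK) (k : ℕ) : ec i k * ea i = -(ea i * ec i k) := by
  unfold ea ec
  rw [psys_lamI.mul, psys_lamI.mul, bg_va, bg_vc, va_inl, sg_zero, sg_one, one_smul, neg_smul,
    one_smul, add_comm (vc i k)]

theorem comm_ea (i : KK) (v : PV II) (h : v (Sum.inl i) = 0) :
    ea i * lamI v = lamI v * ea i := by
  unfold ea
  rw [psys_lamI.mul, psys_lamI.mul, bg_va, bg_va_right, h, add_comm (va i)]
  rfl

theorem comm_ec (i : KK) (k : ℕ) (v : PV II) (h : v (Sum.inl i) = 0)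
    (h' : v (Sum.inr (i, k)) = 0) : ec i k * lamI v = lamI v * ec i k := by
  unfold ec
  rw [psys_lamI.mul, psys_lamI.mul, bg_vc, bg_vc_right, h, h', add_comm (vc i k)]
  rfl

/-- the unitary which conjugates `a i` to `c i 0` -/
noncomputable def eh (i : KK) : M0.E := ((Real.sqrt 2 : ℝ) : ℂ)⁻¹ • (ea i + ec i 0)

theorem sqrt_two_inv : ((Real.sqrt 2 : ℝ) : ℂ)⁻¹ * ((Real.sqrt 2 : ℝ) : ℂ)⁻¹ = 2⁻¹ := by
  rw [← mul_inv, ← Complex.ofReal_mul, Real.mul_self_sqrt (by norm_num)]
  norm_num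

theorem star_eh (i : KK) : star (eh i) = eh i := by
  unfold eh
  rw [star_smul, star_add, star_ea, star_ec]
  congr 1
  rw [star_inv₀]
  congr 1
  exact Complex.conj_ofReal _

theorem eh_sq (i : KK) : eh i * eh i = 1 := by
  unfold eh
  rw [smul_mul_smul_comm, sqrt_two_inv, mul_add, add_mul, add_mul, ea_sq, ec_sq, ec_ea]
  have : (1 : M0.E) + -(ea i * ec i 0) + (ea i * ec i 0 + 1) = (2 : ℂ) • (1 : M0.E) := by
    rw [two_smul]; abel
  rw [this, smul_smul]
  norm_num

theorem eh_ea (i : KK) : eh i * ea i = ec i 0 * eh i := by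
  unfold eh
  rw [smul_mul_assoc, mul_smul_comm, add_mul, mul_add, ea_sq, ec_sq, add_comm]

theorem comm_eh (i : KK) (v : PV II) (h : v (Sum.inl i) = 0) (h' : v (Sum.inr (i, 0)) = 0) :
    eh i * lamI v = lamI v * eh i := by
  unfold eh
  rw [smul_mul_assoc, mul_smul_comm, add_mul, mul_add, comm_ea i v h, comm_ec i 0 v h h']

theorem exists_xF (F : Finset KK) : ∃ x : M0.E, star x * x = 1 ∧ x * star x = 1 ∧
    (∀ i ∈ F, x * ea i = ec i 0 * x) ∧
    ∀ v : PV II, (∀ i ∈ F, v (Sum.inl i) = 0 ∧ v (Sum.inr (i, 0)) = 0) →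
      x * lamI v = lamI v * x := by
  classical
  induction F using Finset.induction_on with
  | empty =>
    refine ⟨1, by rw [star_one, one_mul], by rw [star_one, one_mul],
      fun i hi => absurd hi (Finset.notMem_empty i), fun v _ => by rw [one_mul, mul_one]⟩
  | insert a s ha ih =>
    obtain ⟨x, h1, h2, h3, h4⟩ := ih
    refine ⟨eh a * x, ?_, ?_, ?_, ?_⟩
    · rw [star_mul, star_eh]
      calc star x * eh a * (eh a * x) = star x * (eh a * eh a) * x := by noncomm_ring
        _ = 1 := by rw [eh_sq, mul_one, h1]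
    · rw [star_mul, star_eh]
      calc eh a * x * (star x * eh a) = eh a * (x * star x) * eh a := by noncomm_ring
        _ = 1 := by rw [h2, mul_one, eh_sq]
    · intro i hi
      rcases Finset.mem_insert.1 hi with rfl | hi
      · have h5 : x * ea i = ea i * x := by
          refine h4 _ fun k hk => ?_
          have hki : k ≠ i := fun h => ha (h ▸ hk)
          refine ⟨?_, ?_⟩
          · exact Finsupp.single_eq_of_ne (by simpa using hki)
          · exact Finsupp.single_eq_of_ne (by simp)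
        rw [mul_assoc, h5, ← mul_assoc, eh_ea, mul_assoc]
      · have hia : i ≠ a := fun h => ha (h ▸ hi)
        have h6 : eh a * ec i 0 = ec i 0 * eh a := by
          refine comm_eh a _ ?_ ?_
          · unfold vc
            rw [Finsupp.add_apply, Finsupp.single_eq_of_ne (by simpa using hia.symm),
              Finsupp.single_eq_of_ne (by simp), add_zero]
          · unfold vc
            rw [Finsupp.add_apply, Finsupp.single_eq_of_ne (by simp),
              Finsupp.single_eq_of_ne (by simpa using hia.symm), add_zero]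
        rw [mul_assoc, h3 i hi, ← mul_assoc, h6, mul_assoc]
    · intro v hv
      have h7 := hv a (Finset.mem_insert_self _ _)
      rw [mul_assoc, h4 v fun i hi => hv i (Finset.mem_insert_of_mem hi), ← mul_assoc,
        comm_eh a v h7.1 h7.2, mul_assoc]

/-- the unitaries -/
noncomputable def xF (F : Finset KK) : M0.E := (exists_xF F).choose

theorem xF_spec (F : Finset KK) : star (xF F) * xF F = 1 ∧ xF F * star (xF F) = 1 ∧
    ∀ i ∈ F, xF F * ea i = ec i 0 * xF F :=
  ⟨(exists_xF F).choose_spec.1, (exists_xF F).choose_spec.2.1, (exists_xF F).choose_spec.2.2.1⟩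

theorem opn_one : M0.opNorm 1 ≤ 1 := ContinuousLinearMap.norm_id_le

theorem opn_unit {x : M0.E} (h : star x * x = 1) : M0.opNorm x ≤ 1 := by
  have h1 : M0.opNorm (star x * x) = M0.opNorm x * M0.opNorm x :=
    CStarRing.norm_star_mul_self (E := Pool.Agent.H467F.Elt M0.N)
  rw [h] at h1
  have h2 := opn_one
  have h3 := opn_nonneg M0 x
  nlinarith

theorem n2_sub_lam {v w : PV II} (h : v ≠ w) :
    n2 M0.τ (lamI v - lamI w) ^ 2 = 2 := by
  have hz := psys_lamI.star_mul_ne (I := II) (Ne.symm h)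
  have h1 := pyth M0 (p := lamI v) (q := -lamI w) (by
    rw [star_neg, neg_mul, map_neg, hz, neg_zero])
  rw [← sub_eq_add_neg] at h1
  rw [h1, M0.trAlg.n2_sq, M0.trAlg.n2_sq, star_neg, neg_mul_neg, psys_lamI.star_mul_self,
    psys_lamI.star_mul_self]
  norm_num

theorem lam_inj : Function.Injective (lamI : PV II → M0.E) := by
  intro v w h
  by_contra hne
  have h1 := n2_sub_lam hne
  rw [h, sub_self, M0.trAlg.n2_zero] at h1
  norm_num at h1

theorem vc_ne {i j : KK} (h : i ≠ j) (k l : ℕ) : vc i k ≠ vc j l := by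
  intro h1
  have h2 := vc_inl i k
  rw [h1] at h2
  unfold vc at h2
  rw [Finsupp.add_apply, Finsupp.single_eq_of_ne (by simpa using h),
    Finsupp.single_eq_of_ne (by simp)] at h2
  exact absurd h2 (by decide)

theorem vc_ne' (i : KK) {k l : ℕ} (h : k ≠ l) : vc i k ≠ vc i l := by
  intro h1
  have h2 := vc_inr i k
  rw [h1] at h2
  unfold vc at h2
  rw [Finsupp.add_apply, Finsupp.single_eq_of_ne (by simp),
    Finsupp.single_eq_of_ne (by simpa using h)] at h2
  exact absurd h2 (by decide)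

theorem ec_inj : Function.Injective fun i => ec i 0 := by
  intro i j h
  by_contra hne
  exact vc_ne hne 0 0 (lam_inj h)

/-! ### the set `B` and the type `p` -/

/-- the set `B` -/
def BB : Set M0.E := Set.range ea ∪ Set.range fun i => ec i 0

theorem BB_lam {x : M0.E} (h : x ∈ BB) : ∃ v, x = lamI v := by
  rcases h with ⟨i, rfl⟩ | ⟨i, rfl⟩
  · exact ⟨_, rfl⟩
  · exact ⟨_, rfl⟩

theorem BB_opn {x : M0.E} (h : x ∈ BB) : M0.opNorm x ≤ 1 := by
  obtain ⟨v, rfl⟩ := BB_lam h
  exact opn_unit (psys_lamI.unit v)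

/-- the value of a formula with parameters -/
noncomputable def pv {P : Type} (ψ : PFm 1 P) (x : M0.E) (b : P → M0.E) : ℝ :=
  fv M0 ψ.φ fun k => Sum.elim (fun _ : Fin 1 => x) b (ψ.v k)

theorem pv_eq {P : Type} (ψ : PFm 1 P) (x : Fin 1 → M0.E) (b : P → M0.E) :
    ψ.val (str M0) x b = pv ψ (x 0) b := by
  have : x = fun _ => x 0 := by
    funext i
    rw [Subsingleton.elim i 0]
  rw [this]
  rfl

theorem pv_bdd (ψ : PFm 1 BB) : ∃ C : ℝ, ∀ x : M0.E, M0.opNorm x ≤ 1 →
    |pv ψ x Subtype.val| ≤ C := by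
  obtain ⟨C, hC⟩ := (UC_fm M0 ψ.φ 1 zero_le_one).bd
  refine ⟨C, fun x hx => hC _ fun k => ?_⟩
  cases h : ψ.v k with
  | inl i => exact hx
  | inr b => exact BB_opn b.2

/-- the ultrafilter -/
noncomputable def UU : Ultrafilter (Finset KK) := Ultrafilter.of atTop

theorem UU_le : (UU : Filter (Finset KK)) ≤ atTop := Ultrafilter.of_le _

theorem exists_lim (ψ : PFm 1 BB) :
    ∃ L : ℝ, Tendsto (fun F => pv ψ (xF F) Subtype.val) UU (𝓝 L) := by
  obtain ⟨C, hC⟩ := pv_bdd ψ
  have h1 : ∀ F, pv ψ (xF F) Subtype.val ∈ Set.Icc (-C) C := fun F =>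
    abs_le.1 (hC _ (opn_unit (xF_spec F).1))
  have h2 := (isCompact_Icc (a := -C) (b := C)).ultrafilter_le_nhds
    (UU.map fun F => pv ψ (xF F) Subtype.val) (by
      rw [le_principal_iff]
      exact Filter.mem_map.2 (Filter.Eventually.of_forall h1))
  obtain ⟨L, _, hL⟩ := h2
  exact ⟨L, hL⟩

/-- the type -/
noncomputable def pp (ψ : PFm 1 BB) : ℝ := (exists_lim ψ).choose

theorem pp_spec (ψ : PFm 1 BB) :
    Tendsto (fun F => pv ψ (xF F) Subtype.val) UU (𝓝 (pp ψ)) := (exists_lim ψ).choose_spec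

theorem pp_isType : IsType (str M0) BB 1 1 pp := by
  classical
  intro G ε hε
  have h1 : ∀ᶠ F in (UU : Filter (Finset KK)), ∀ ψ ∈ G,
      |pv ψ (xF F) Subtype.val - pp ψ| ≤ ε := by
    rw [Filter.eventually_all_finset]
    intro ψ _
    have h2 := (Metric.tendsto_nhds.1 (pp_spec ψ)) ε hε
    exact h2.mono fun F hF => (Real.dist_eq _ _ ▸ hF).le
  obtain ⟨F, hF⟩ := h1.exists
  refine ⟨fun _ => xF F, fun _ => ?_, fun ψ hψ => ?_⟩
  · show M0.opNorm (xF F) ≤ ((1 : ℕ) : ℝ)
    rw [Nat.cast_one]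
    exact opn_unit (xF_spec F).1
  · have := pv_eq ψ (fun _ => xF F) Subtype.val
    rw [this]
    exact hF ψ hψ

theorem pp_eq_zero (ψ : PFm 1 BB) (i : KK)
    (h : ∀ F : Finset KK, i ∈ F → pv ψ (xF F) Subtype.val = 0) : pp ψ = 0 := by
  classical
  refine tendsto_nhds_unique (pp_spec ψ) ?_
  refine tendsto_const_nhds.congr' ?_
  have h1 : ∀ᶠ F in (atTop : Filter (Finset KK)), ({i} : Finset KK) ⊆ F :=
    eventually_ge_atTop ({i} : Finset KK)
  have h2 : ∀ᶠ F in (UU : Filter (Finset KK)), ({i} : Finset KK) ⊆ F := UU_le h1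
  exact h2.mono fun F hF => (h F (hF (Finset.mem_singleton_self i))).symm

/-! ### the formulas -/

theorem ea_mem (i : KK) : ea i ∈ BB := Or.inl ⟨i, rfl⟩

theorem ec_mem (i : KK) : ec i 0 ∈ BB := Or.inr ⟨i, rfl⟩

/-- `‖x a - c x‖₂` -/
noncomputable def psi1 (i : KK) : PFm 1 BB where
  n := 3
  φ := .nrm (.add (.mul (.var 0) (.var 1)) (.scal (-1) (.mul (.var 2) (.var 0))))
  v := ![Sum.inl 0, Sum.inr ⟨ea i, ea_mem i⟩, Sum.inr ⟨ec i 0, ec_mem i⟩]

/-- `‖x x^* - 1‖₂` -/
noncomputable def psi2 : PFm 1 BB where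
  n := 1
  φ := .nrm (.add (.mul (.var 0) (.adj (.var 0))) (.scal (-1) .one))
  v := ![Sum.inl 0]

theorem psi1_val (i : KK) (x : M0.E) (b : BB → M0.E) :
    pv (psi1 i) x b = n2 M0.τ (x * b ⟨ea i, ea_mem i⟩ - b ⟨ec i 0, ec_mem i⟩ * x) := by
  have h : pv (psi1 i) x b =
      n2 M0.τ (x * b ⟨ea i, ea_mem i⟩ + (-1 : ℂ) • (b ⟨ec i 0, ec_mem i⟩ * x)) := rfl
  rw [h, neg_one_smul, ← sub_eq_add_neg]

theorem psi2_val (x : M0.E) (b : BB → M0.E) :
    pv psi2 x b = n2 M0.τ (x * star x - 1) := by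
  have h : pv psi2 x b = n2 M0.τ (x * star x + (-1 : ℂ) • 1) := rfl
  rw [h, neg_one_smul, ← sub_eq_add_neg]

theorem pp_psi1 (i : KK) : pp (psi1 i) = 0 := by
  refine pp_eq_zero _ i fun F hF => ?_
  rw [psi1_val]
  show n2 M0.τ (xF F * ea i - ec i 0 * xF F) = 0
  rw [(xF_spec F).2.2 i hF, sub_self, M0.trAlg.n2_zero]

theorem pp_psi2 : pp psi2 = 0 := by
  refine pp_eq_zero _ (fun _ => true) fun F _ => ?_
  rw [psi2_val, (xF_spec F).2.1, sub_self, M0.trAlg.n2_zero]

/-- the contradiction -/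
theorem contra (i : KK) (x : M0.E) (hx : M0.opNorm x ≤ 1)
    (h0 : n2 M0.τ (x * ea i - ec i 0 * x) ≤ 1 / 4) (h1 : n2 M0.τ (x * ea i - ec i 1 * x) ≤ 1 / 4)
    (h2 : n2 M0.τ (x * star x - 1) ≤ 1 / 4) : False := by
  set d : M0.E := ec i 0 - ec i 1 with hd
  have hd2 : n2 M0.τ d ^ 2 = 2 := n2_sub_lam (vc_ne' i (by norm_num))
  have e1 : d * x = (x * ea i - ec i 1 * x) - (x * ea i - ec i 0 * x) := by
    rw [hd]; noncomm_ring
  have b1 : n2 M0.τ (d * x) ≤ 1 / 2 := by
    rw [e1]
    have := M0.trAlg.n2_sub_le (x * ea i - ec i 1 * x) (x * ea i - ec i 0 * x)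
    linarith
  have e2 : d = d * x * star x - d * (x * star x - 1) := by noncomm_ring
  have hdn : M0.opNorm d ≤ 2 := by
    have h3 := opn_add M0 (ec i 0) (-ec i 1)
    rw [← sub_eq_add_neg] at h3
    have h4 : M0.opNorm (-ec i 1) = M0.opNorm (ec i 1) :=
      norm_neg ((ec i 1).1 : M0.H →L[ℂ] M0.H)
    have h5 : M0.opNorm (ec i 0) ≤ 1 := opn_unit (psys_lamI.unit _)
    have h6 : M0.opNorm (ec i 1) ≤ 1 := opn_unit (psys_lamI.unit _)
    linarith
  have b2 : n2 M0.τ (d * x * star x) ≤ 1 / 2 := by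
    have h3 := (M0.n2_mul_le (star x) (d * x)).2
    rw [opn_star] at h3
    have h4 := n2_nonneg M0.τ (d * x)
    nlinarith
  have b3 : n2 M0.τ (d * (x * star x - 1)) ≤ 1 / 2 := by
    have h3 := (M0.n2_mul_le d (x * star x - 1)).1
    have h4 := n2_nonneg M0.τ (x * star x - 1)
    have h5 := opn_nonneg M0 d
    nlinarith
  have b4 : n2 M0.τ d ≤ 1 := by
    rw [e2]
    have := M0.trAlg.n2_sub_le (d * x * star x) (d * (x * star x - 1))
    linarith
  have h7 := n2_nonneg M0.τ d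
  nlinarith

/-! ### the indiscernible sequence -/

/-- the injections of the index set -/
noncomputable def pin (i : KK) (σ : ℕ → ℕ) : II → II
  | Sum.inl j => Sum.inl j
  | Sum.inr (j, k) => by
    classical exact if j = i then Sum.inr (j, σ k) else Sum.inr (j, k)

theorem pin_inl (i : KK) (σ : ℕ → ℕ) (j : KK) : pin i σ (Sum.inl j) = Sum.inl j := rfl

theorem pin_self (i : KK) (σ : ℕ → ℕ) (k : ℕ) :
    pin i σ (Sum.inr (i, k)) = Sum.inr (i, σ k) := by
  unfold pin
  simp

theorem pin_ne {i : KK} (σ : ℕ → ℕ) {j : KK} (h : j ≠ i) (k : ℕ) :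
    pin i σ (Sum.inr (j, k)) = Sum.inr (j, k) := by
  unfold pin
  simp [h]

theorem pin_inj (i : KK) {σ : ℕ → ℕ} (hσ : Function.Injective σ) :
    Function.Injective (pin i σ) := by
  rintro (j | ⟨j, k⟩) (j' | ⟨j', k'⟩) h
  · exact h
  · exfalso
    by_cases h1 : j' = i
    · subst h1
      rw [pin_inl, pin_self] at h
      exact absurd h (by simp)
    · rw [pin_inl, pin_ne σ h1] at h
      exact absurd h (by simp)
  · exfalso
    by_cases h1 : j = i
    · subst h1
      rw [pin_inl, pin_self] at h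
      exact absurd h (by simp)
    · rw [pin_inl, pin_ne σ h1] at h
      exact absurd h (by simp)
  · by_cases h1 : j = i
    · by_cases h2 : j' = i
      · subst h1
        subst h2
        rw [pin_self, pin_self] at h
        simp only [Sum.inr.injEq, Prod.mk.injEq, true_and] at h
        rw [hσ h]
      · exfalso
        subst h1
        rw [pin_self, pin_ne σ h2] at h
        simp only [Sum.inr.injEq, Prod.mk.injEq] at h
        exact h2 h.1.symm
    · by_cases h2 : j' = i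
      · exfalso
        subst h2
        rw [pin_self, pin_ne σ h1] at h
        simp only [Sum.inr.injEq, Prod.mk.injEq] at h
        exact h1 h.1
      · rw [pin_ne σ h1, pin_ne σ h2] at h
        exact h

theorem map_va (i : KK) (σ : ℕ → ℕ) (j : KK) : (va j).mapDomain (pin i σ) = va j := by
  unfold va
  rw [Finsupp.mapDomain_single, pin_inl]

theorem map_vc {i : KK} (σ : ℕ → ℕ) {j : KK} (h : j ≠ i) (k : ℕ) :
    (vc j k).mapDomain (pin i σ) = vc j k := by
  unfold vc
  rw [Finsupp.mapDomain_add, Finsupp.mapDomain_single, Finsupp.mapDomain_single, pin_inl,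
    pin_ne σ h]

theorem map_vc_self (i : KK) (σ : ℕ → ℕ) (k : ℕ) :
    (vc i k).mapDomain (pin i σ) = vc i (σ k) := by
  unfold vc
  rw [Finsupp.mapDomain_add, Finsupp.mapDomain_single, Finsupp.mapDomain_single, pin_inl,
    pin_self]

/-- the sequence -/
noncomputable def bs (i : KK) (k : ℕ) (β : BB) : M0.E := by
  classical exact if β.1 = ec i 0 then ec i k else β.1

theorem bs_self (i : KK) (k : ℕ) : bs i k ⟨ec i 0, ec_mem i⟩ = ec i k := by
  unfold bs
  simp

theorem bs_ne (i : KK) (k : ℕ) (β : BB) (h : β.1 ≠ ec i 0) : bs i k β = β.1 := by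
  unfold bs
  simp [h]

theorem bs_zero (i : KK) (β : BB) : bs i 0 β = β.1 := by
  unfold bs
  split_ifs with h
  · exact h.symm
  · rfl

theorem ea_ne_ec (j i : KK) : ea j ≠ ec i 0 := by
  intro h
  have h1 := lam_inj h
  have h2 := vc_inr i 0
  rw [← h1] at h2
  unfold va at h2
  rw [Finsupp.single_eq_of_ne (by simp)] at h2
  exact absurd h2 (by decide)

theorem fix_of_ne {i : KK} {x : M0.E} (hx : x ∈ BB) (h : x ≠ ec i 0) (σ : ℕ → ℕ) :
    ∃ u : PV II, x = lamI u ∧ u.mapDomain (pin i σ) = u := by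
  rcases hx with ⟨j, rfl⟩ | ⟨j, rfl⟩
  · exact ⟨va j, rfl, map_va i σ j⟩
  · have hji : j ≠ i := by
      rintro rfl
      exact h rfl
    exact ⟨vc j 0, rfl, map_vc σ hji 0⟩

theorem indisc (i : KK) (A : Set M0.E) (hA : A ⊆ BB) (hi : ec i 0 ∉ A) :
    IsIndiscernible (str M0) (fun α : A => (α.1 : M0.E)) (bs i) := by
  intro n φ v σ hσ
  have key : ∀ k : Fin n, ∃ u : PV II,
      (Sum.elim (fun α : A => (α.1 : M0.E)) (fun q : ℕ × BB => bs i q.1 q.2) (v k) = lamI u) ∧
      (Sum.elim (fun α : A => (α.1 : M0.E)) (fun q : ℕ × BB => bs i (σ q.1) q.2) (v k) =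
        lamI (u.mapDomain (pin i σ))) := by
    intro k
    cases v k with
    | inl α =>
      obtain ⟨u, h1, h2⟩ := fix_of_ne (i := i) (hA α.2) (fun h => hi (h ▸ α.2)) σ
      exact ⟨u, h1, by rw [h2]; exact h1⟩
    | inr q =>
      by_cases hq : q.2.1 = ec i 0
      · have hq' : q.2 = ⟨ec i 0, ec_mem i⟩ := Subtype.ext hq
        refine ⟨vc i q.1, ?_, ?_⟩
        · show bs i q.1 q.2 = _
          rw [hq', bs_self]
          rfl
        · show bs i (σ q.1) q.2 = _
          rw [hq', bs_self, map_vc_self]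
          rfl
      · obtain ⟨u, h1, h2⟩ := fix_of_ne (i := i) q.2.2 hq σ
        refine ⟨u, ?_, ?_⟩
        · show bs i q.1 q.2 = _
          rw [bs_ne i _ _ hq, h1]
        · show bs i (σ q.1) q.2 = _
          rw [bs_ne i _ _ hq, h2, h1]
  choose u hu1 hu2 using key
  have h := inv_inj psys_lamI dn_lamI (pin i σ) (pin_inj i hσ.injective) φ u
  have e1 : (fun k => Sum.elim (fun α : A => (α.1 : M0.E)) (fun q : ℕ × BB => bs i (σ q.1) q.2)
      (v k)) = fun k => lamI ((u k).mapDomain (pin i σ)) := funext hu2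
  have e2 : (fun k => Sum.elim (fun α : A => (α.1 : M0.E)) (fun q : ℕ × BB => bs i q.1 q.2)
      (v k)) = fun k => lamI (u k) := funext hu1
  show fv M0 φ (fun k => Sum.elim (fun α : A => (α.1 : M0.E))
    (fun q : ℕ × BB => bs i (σ q.1) q.2) (v k)) =
    fv M0 φ (fun k => Sum.elim (fun α : A => (α.1 : M0.E))
    (fun q : ℕ × BB => bs i q.1 q.2) (v k))
  rw [e1, e2, h]

/-! ### the final argument -/

theorem countable_of_sep {A : Set M0.E} (hA : A ⊆ BB) (h : IsSepSet (str M0) A) :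
    A.Countable := by
  obtain ⟨S, hSA, hS, hd⟩ : ∃ S : Set M0.E, S ⊆ A ∧ S.Countable ∧
    ∀ x ∈ A, ∀ ε : ℝ, 0 < ε → ∃ y ∈ S, n2 M0.τ (x - y) < ε := by
    obtain ⟨S, h1, h2, h3⟩ := h
    refine ⟨S, h1, h2, fun x hx ε hε => ?_⟩
    obtain ⟨y, hy, hxy⟩ := h3 x hx ε hε
    have h4 : (str M0).norm2 ((str M0).sub x y) = n2 M0.τ ((x : M0.E) - (show M0.E from y)) :=
      congrArg (str M0).norm2 (sub_eq M0 x y)
    exact ⟨y, hy, h4 ▸ hxy⟩
  refine hS.mono fun x hx => ?_
  obtain ⟨y, hy, hxy⟩ := hd x hx 1 one_pos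
  obtain ⟨v, hv⟩ := BB_lam (hA hx)
  obtain ⟨w, hw⟩ := BB_lam (hA (hSA hy))
  by_cases hvw : v = w
  · have : x = y := by rw [hv, hw, hvw]
    rw [this]
    exact hy
  · exfalso
    have h1 := n2_sub_lam hvw
    have h2 : n2 M0.τ (lamI v - lamI w) < 1 := by
      rw [← hv, ← hw]
      exact hxy
    have h4 := n2_nonneg M0.τ (lamI v - lamI w)
    nlinarith

theorem divides {A : Set M0.E} (hA : A ⊆ BB) (hc : A.Countable) :
    Divides (str M0) BB 1 1 pp A := by
  classical
  obtain ⟨i, hi⟩ : ∃ i : KK, ec i 0 ∉ A := by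
    by_contra hcon
    push Not at hcon
    have h1 : (Set.univ : Set KK).Countable := by
      have h2 : ((fun i => ec i 0) ⁻¹' A).Countable := hc.preimage_of_injOn ec_inj.injOn
      exact h2.mono fun i _ => hcon i
    rw [Set.countable_univ_iff] at h1
    exact not_countable h1
  refine ⟨str M0, id, bs i, isTVN M0, ⟨fun _ => rfl, fun _ _ _ => rfl⟩, fun β => bs_zero i β,
    indisc i A hA hi, {(0, psi1 i), (1, psi1 i), (0, psi2)}, 1 / 4, by norm_num, ?_⟩
  intro x hx
  by_contra hcon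
  push Not at hcon
  have h0 := hcon (0, psi1 i) (Finset.mem_insert_self _ _)
  have h1 := hcon (1, psi1 i) (Finset.mem_insert_of_mem (Finset.mem_insert_self _ _))
  have h2 := hcon (0, psi2)
    (Finset.mem_insert_of_mem (Finset.mem_insert_of_mem (Finset.mem_singleton_self _)))
  have hx0 : M0.opNorm (x 0) ≤ 1 := by
    have := hx 0
    rw [Nat.cast_one] at this
    exact this
  obtain ⟨z, hz⟩ : ∃ z : M0.E, x 0 = z := ⟨x 0, rfl⟩
  rw [hz] at hx0
  have e0 : (psi1 i).val (str M0) x (bs i 0) - pp (psi1 i) =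
      n2 M0.τ (z * ea i - ec i 0 * z) := by
    rw [pv_eq (psi1 i) x (bs i 0), hz, psi1_val, pp_psi1, sub_zero, bs_zero, bs_zero]
  have e1 : (psi1 i).val (str M0) x (bs i 1) - pp (psi1 i) =
      n2 M0.τ (z * ea i - ec i 1 * z) := by
    rw [pv_eq (psi1 i) x (bs i 1), hz, psi1_val, pp_psi1, sub_zero, bs_self,
      bs_ne i 1 _ (ea_ne_ec i i)]
  have e2 : psi2.val (str M0) x (bs i 0) - pp psi2 = n2 M0.τ (z * star z - 1) := by
    rw [pv_eq psi2 x (bs i 0), hz, psi2_val, pp_psi2, sub_zero]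
  have g0 : |(psi1 i).val (str M0) x (bs i 0) - pp (psi1 i)| ≤ 1 / 4 := h0
  have g1 : |(psi1 i).val (str M0) x (bs i 1) - pp (psi1 i)| ≤ 1 / 4 := h1
  have g2 : |psi2.val (str M0) x (bs i 0) - pp psi2| ≤ 1 / 4 := h2
  rw [e0] at g0
  rw [e1] at g1
  rw [e2] at g2
  exact contra i z hx0 (abs_le.1 g0).2 (abs_le.1 g1).2 (abs_le.1 g2).2

/-- the Pauli system of a hyperfinite factor -/
theorem exists_psys (T : TVN) (h : T.IsHyperfinite) :
    ∃ W : PV ℕ → T.E, PSys T.τ W ∧ Dn T W := by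
  obtain ⟨j, hc, hd⟩ := h
  have hp := pauliSys (τ := T.τ) (j := j) hc T.trAlg
  refine ⟨Ws j, ⟨hp.zero, hp.mul, hp.star, T.map_one, fun v hv => ?_⟩, fun x ε hε => ?_⟩
  · rw [hp.trace, if_neg hv]
  · obtain ⟨y, hy, hxy⟩ := hd x ε hε
    obtain ⟨F, c, rfl⟩ := adjoin_le (j := j) hc y hy
    exact ⟨F, c, hxy⟩

theorem main (R : Str) (hR : R.IsHyperfinite) : ¬ IsSimple R := by
  intro hs
  obtain ⟨T, rfl⟩ := exists_tvn R hR.1
  obtain ⟨W, hW, hd⟩ := exists_psys T (hyp_of T hR)
  have hE : (str M0).ElemEq (str T) := elemEq psys_lamI dn_lamI hW hd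
  obtain ⟨A, hA, hsep, hnd⟩ := hs (str M0) (isTVN M0) hE BB 1 1 pp pp_isType
  exact hnd (divides hA (countable_of_sep hA hsep))

end Run7.h812.Simp
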